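import Mathlib

/-! # Graph products of groups -/

set_option autoImplicit false

namespace Pool.Agent.Y33.GP

open Monoid

section Def

variable {V : Type} (Γ : SimpleGraph V) (H : V → Type) [∀ v, Group (H v)]

/-- The commutation relations of the graph product. -/
def rels : Set (CoprodI H) :=
  {x | ∃ (u v : V) (a : H u) (b : H v), Γ.Adj u v ∧
    x = CoprodI.of a * CoprodI.of b * (CoprodI.of a)⁻¹ * (CoprodI.of b)⁻¹}

/-- The graph product of the groups `H v` over the graph `Γ`. -/
def GProd : Type := CoprodI H ⧸ Subgroup.normalClosure (rels Γ H)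

noncomputable instance : Group (GProd Γ H) :=
  inferInstanceAs (Group (CoprodI H ⧸ Subgroup.normalClosure (rels Γ H)))

/-- The vertex groups in the graph product. -/
noncomputable def inj (v : V) : H v →* GProd Γ H :=
  (QuotientGroup.mk' (Subgroup.normalClosure (rels Γ H))).comp CoprodI.of

theorem inj_comm {u v : V} (h : Γ.Adj u v) (a : H u) (b : H v) :
    inj Γ H u a * inj Γ H v b = inj Γ H v b * inj Γ H u a := by
  have h1 : (CoprodI.of a * CoprodI.of b * (CoprodI.of a)⁻¹ * (CoprodI.of b)⁻¹ : CoprodI H) ∈
      Subgroup.normalClosure (rels Γ H) :=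
    Subgroup.subset_normalClosure ⟨u, v, a, b, h, rfl⟩
  have h2 : (QuotientGroup.mk' (Subgroup.normalClosure (rels Γ H)))
      (CoprodI.of a * CoprodI.of b * (CoprodI.of a)⁻¹ * (CoprodI.of b)⁻¹ : CoprodI H) = 1 :=
    (QuotientGroup.eq_one_iff _).2 h1
  rw [map_mul, map_mul, map_mul, map_inv, map_inv, mul_inv_eq_one, mul_inv_eq_iff_eq_mul] at h2
  exact h2

variable {K : Type} [Group K]

/-- The universal property. -/
noncomputable def lift (f : ∀ v, H v →* K)
    (hf : ∀ u v, Γ.Adj u v → ∀ (a : H u) (b : H v), f u a * f v b = f v b * f u a) :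
    GProd Γ H →* K :=
  QuotientGroup.lift (Subgroup.normalClosure (rels Γ H)) (CoprodI.lift f) (by
    have : Subgroup.normalClosure (rels Γ H) ≤ (CoprodI.lift f).ker := by
      refine Subgroup.normalClosure_le_normal ?_
      rintro x ⟨u, v, a, b, h, rfl⟩
      rw [SetLike.mem_coe, MonoidHom.mem_ker]
      rw [map_mul, map_mul, map_mul, map_inv, map_inv, mul_inv_eq_one, mul_inv_eq_iff_eq_mul]
      simp only [CoprodI.lift_of]
      exact hf u v h a b
    intro x hx
    exact this hx)

@[simp] theorem lift_inj (f : ∀ v, H v →* K)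
    (hf : ∀ u v, Γ.Adj u v → ∀ (a : H u) (b : H v), f u a * f v b = f v b * f u a) (v : V)
    (a : H v) : lift Γ H f hf (inj Γ H v a) = f v a := by
  change CoprodI.lift f (CoprodI.of a) = f v a
  exact CoprodI.lift_of f a

/-- Induction on words. -/
theorem ind_left {P : GProd Γ H → Prop} (x : GProd Γ H) (h1 : P 1)
    (h2 : ∀ v (a : H v) x, P x → P (inj Γ H v a * x)) : P x := by
  obtain ⟨y, rfl⟩ := QuotientGroup.mk'_surjective (Subgroup.normalClosure (rels Γ H)) x
  induction y using CoprodI.induction_left with
  | one => rw [map_one]; exact h1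
  | mul m y ih => rw [map_mul]; exact h2 _ m _ ih

theorem hom_ext' {f g : GProd Γ H →* K} (h : ∀ v (a : H v), f (inj Γ H v a) = g (inj Γ H v a)) :
    f = g := by
  ext x
  refine ind_left Γ H (P := fun x => f x = g x) x (by rw [map_one, map_one]) ?_
  intro v a x hx
  rw [map_mul, map_mul, hx, h]

open Classical in
/-- The retraction onto the subgroup generated by the vertex groups of `Λ`. -/
noncomputable def kap (Λ : Set V) : GProd Γ H →* GProd Γ H :=
  lift Γ H (fun v => if v ∈ Λ then inj Γ H v else 1) (by
    intro u v h a b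
    by_cases hu : u ∈ Λ <;> by_cases hv : v ∈ Λ <;> simp [hu, hv]
    exact inj_comm Γ H h a b)

theorem kap_mem {Λ : Set V} {v : V} (h : v ∈ Λ) (a : H v) :
    kap Γ H Λ (inj Γ H v a) = inj Γ H v a := by
  unfold kap
  rw [lift_inj]; simp [h]

theorem kap_not {Λ : Set V} {v : V} (h : v ∉ Λ) (a : H v) :
    kap Γ H Λ (inj Γ H v a) = 1 := by
  unfold kap
  rw [lift_inj]; simp [h]

open Classical in
theorem single_comm {u v : V} (h : Γ.Adj u v) (a : H u) (b : H v) :
    MonoidHom.mulSingle H u a * MonoidHom.mulSingle H v b =
      MonoidHom.mulSingle H v b * MonoidHom.mulSingle H u a :=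
  (Pi.mulSingle_commute (h.ne) a b).eq

open Classical in
/-- All the projections to the vertex groups. -/
noncomputable def pall : GProd Γ H →* (∀ v, H v) :=
  lift Γ H (fun v => MonoidHom.mulSingle H v) (fun _ _ h a b => single_comm Γ H h a b)

open Classical in
theorem pall_inj (v : V) (a : H v) : pall Γ H (inj Γ H v a) = Pi.mulSingle v a :=
  lift_inj Γ H (fun v => MonoidHom.mulSingle H v) (fun _ _ h a b => single_comm Γ H h a b) v a

theorem pall_same (v : V) (a : H v) : pall Γ H (inj Γ H v a) v = a := by
  classical
  rw [pall_inj]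
  simp

theorem pall_ne {v w : V} (h : w ≠ v) (a : H v) : pall Γ H (inj Γ H v a) w = 1 := by
  classical
  rw [pall_inj]
  simp [h]

end Def

/-! ### Heads in free products -/

section Head

open Classical CoprodI CoprodI.Word

variable {ι : Type} {M : ι → Type} [∀ i, Group (M i)]

/-- The head of index `i` of an element of a free product. -/
noncomputable def hd (i : ι) (n : CoprodI M) : M i := (Word.equivPair i (n • Word.empty)).head

theorem hd_one (i : ι) : hd i (1 : CoprodI M) = 1 := by
  unfold hd
  rw [one_smul, equivPair_eq_of_fstIdx_ne]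
  simp [fstIdx, Word.empty]

theorem hd_of_mul {i : ι} (m : M i) (n : CoprodI M) : hd i (of m * n) = m * hd i n := by
  unfold hd
  rw [mul_smul, equivPair_smul_same]

theorem hd_word {i : ι} (w : Word M) (h : w.fstIdx ≠ some i) : hd i w.prod = 1 := by
  unfold hd
  have : w.prod • (Word.empty : Word M) = w := Word.equiv.apply_symm_apply w
  rw [this, equivPair_eq_of_fstIdx_ne h]

theorem hd_eq_one_of {i k : ι} {m : M k} {n : CoprodI M} (h1 : hd k n = 1) (hm : m ≠ 1)
    (hik : i ≠ k) : hd i (of m * n) = 1 := by
  unfold hd at *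
  rw [mul_smul, of_smul_def, h1, mul_one]
  have : rcons ({ equivPair k (n • (Word.empty : Word M)) with head := m } : Word.Pair M k) =
      Word.cons m (equivPair k (n • (Word.empty : Word M))).tail
        (equivPair k (n • (Word.empty : Word M))).fstIdx_ne hm := by
    rw [rcons, dif_neg hm]
  rw [this, equivPair_eq_of_fstIdx_ne]
  rw [fstIdx_cons]
  simpa using Ne.symm hik

theorem hd_of_ne {i j : ι} (h : i ≠ j) (b : M j) : hd i (of b : CoprodI M) = 1 := by
  by_cases hb : b = 1
  · rw [hb, map_one, hd_one]
  · have := hd_eq_one_of (i := i) (k := j) (m := b) (n := 1) (hd_one j) hb h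
    rwa [mul_one] at this

theorem hd_word_mul_of (w : Word M) : ∀ (i j : ι) (b : M j),
    (i ≠ j ∨ ¬ ∃ c : M i, w.prod = of c) → hd i (w.prod * of b) = hd i w.prod := by
  induction w using consRecOn with
  | empty =>
    intro i j b h
    rw [prod_empty, one_mul, hd_one]
    rcases h with h | h
    · exact hd_of_ne h b
    · exact absurd ⟨1, by simp⟩ h
  | cons k m w h1 h2 ih =>
    intro i j b h
    rw [prod_cons, mul_assoc]
    by_cases hik : i = k
    · subst hik
      rw [hd_of_mul, hd_of_mul, ih]
      rcases h with h | h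
      · exact Or.inl h
      · right
        rintro ⟨c, hc⟩
        exact h ⟨m * c, by rw [prod_cons, hc, map_mul]⟩
    · have hw : hd k w.prod = 1 := hd_word w h1
      have e1 : hd i (of m * w.prod) = 1 := hd_eq_one_of hw h2 hik
      rw [e1]
      by_cases hc : k ≠ j ∨ ¬ ∃ c : M k, w.prod = of c
      · refine hd_eq_one_of ?_ h2 hik
        rw [ih k j b hc, hw]
      · push Not at hc
        obtain ⟨rfl, c, hc⟩ := hc
        rw [hc] at hw ⊢
        have hc1 : c = 1 := by
          have := hd_of_mul (M := M) c 1
          rw [mul_one, hw, hd_one, mul_one] at this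
          exact this.symm
        rw [hc1, map_one, one_mul, ← map_mul]
        exact hd_of_ne hik _

theorem hd_mul_of {i j : ι} (n : CoprodI M) (b : M j) (h : i ≠ j ∨ ¬ ∃ c : M i, n = of c) :
    hd i (n * of b) = hd i n := by
  have : (Word.equiv n).prod = n := Word.equiv.symm_apply_apply n
  rw [← this] at h ⊢
  exact hd_word_mul_of _ i j b h

end Head

/-! ### Permutations of the indices -/

section Perm

open Classical CoprodI CoprodI.Word

variable {ι : Type} {M : Type} [Group M]

/-- The inclusion of the copy of index `i`. -/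
def ofc (i : ι) : M →* CoprodI (fun _ : ι => M) := CoprodI.of (M := fun _ : ι => M) (i := i)

/-- Permutation of the indices. -/
def permHom (σ : ι → ι) :
    CoprodI (fun _ : ι => M) →* CoprodI (fun _ : ι => M) :=
  CoprodI.lift (fun i => ofc (σ i))

theorem permHom_ofc (σ : ι → ι) (i : ι) (m : M) : permHom σ (ofc i m) = ofc (σ i) m :=
  CoprodI.lift_of _ _

theorem permHom_comp (σ τ : ι → ι) (n : CoprodI (fun _ : ι => M)) :
    permHom σ (permHom τ n) = permHom (σ ∘ τ) n := by
  have : (permHom (M := M) σ).comp (permHom τ) = permHom (σ ∘ τ) := by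
    refine CoprodI.ext_hom _ _ fun i => ?_
    ext m
    change permHom σ (permHom τ (ofc i m)) = permHom (σ ∘ τ) (ofc i m)
    rw [permHom_ofc, permHom_ofc, permHom_ofc]
    rfl
  exact DFunLike.congr_fun this n

theorem permHom_id (n : CoprodI (fun _ : ι => M)) : permHom id n = n := by
  have : (permHom (M := M) (id : ι → ι)) = MonoidHom.id _ := by
    refine CoprodI.ext_hom _ _ fun i => ?_
    ext m
    change permHom id (ofc i m) = ofc i m
    rw [permHom_ofc]
    rfl
  exact DFunLike.congr_fun this n

theorem hd_perm (σ : Equiv.Perm ι) (n : CoprodI (fun _ : ι => M)) (i : ι) :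
    hd (σ i) (permHom σ n) = hd i n := by
  have : (Word.equiv n).prod = n := Word.equiv.symm_apply_apply n
  rw [← this]
  generalize Word.equiv n = w
  clear this
  induction w using consRecOn generalizing i with
  | empty =>
    rw [prod_empty, map_one, hd_one, hd_one]
  | cons k m w h1 h2 ih =>
    rw [prod_cons, map_mul]
    have e : permHom σ (CoprodI.of m : CoprodI (fun _ : ι => M)) = ofc (σ k) m :=
      permHom_ofc σ k m
    rw [e]
    by_cases hik : i = k
    · subst hik
      have := hd_of_mul (M := fun _ : ι => M) (i := σ i) m (permHom σ w.prod)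
      refine this.trans ?_
      rw [ih, hd_of_mul]
    · have hw : hd k w.prod = 1 := hd_word w h1
      rw [hd_eq_one_of hw h2 hik]
      refine hd_eq_one_of (M := fun _ : ι => M) (k := σ k) ?_ h2 (by simpa using hik)
      rw [ih, hw]

/-- The action of a group on the free product permuting the indices. -/
noncomputable def permAct {G : Type} [Group G] [MulAction G ι] :
    G →* MulAut (CoprodI (fun _ : ι => M)) where
  toFun g :=
    { toFun := permHom (fun i => g • i)
      invFun := permHom (fun i => g⁻¹ • i)
      left_inv := by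
        intro n
        rw [permHom_comp]
        have e : ((fun i => g⁻¹ • i) ∘ fun i => g • i) = (id : ι → ι) := by
          funext i; simp
        rw [e, permHom_id]
      right_inv := by
        intro n
        rw [permHom_comp]
        have e : ((fun i => g • i) ∘ fun i => g⁻¹ • i) = (id : ι → ι) := by
          funext i; simp
        rw [e, permHom_id]
      map_mul' := fun x y => map_mul _ x y }
  map_one' := by
    refine MulEquiv.ext fun n => ?_
    change permHom (fun i => (1 : G) • i) n = n
    have e : (fun i => (1 : G) • i) = (id : ι → ι) := by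
      funext i; simp
    rw [e, permHom_id]
  map_mul' g h := by
    refine MulEquiv.ext fun n => ?_
    change permHom (fun i => (g * h) • i) n = permHom (fun i => g • i) (permHom (fun i => h • i) n)
    rw [permHom_comp]
    have e : (fun i => (g * h) • i) = ((fun i => g • i) ∘ fun i => h • i : ι → ι) := by
      funext i; simp [mul_smul]
    rw [e]

theorem permAct_apply {G : Type} [Group G] [MulAction G ι] (g : G)
    (n : CoprodI (fun _ : ι => M)) : permAct g n = permHom (fun i => g • i) n := rfl

theorem permAct_ofc {G : Type} [Group G] [MulAction G ι] (g : G) (i : ι) (m : M) :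
    permAct g (ofc i m) = ofc (g • i) m := by
  rw [permAct_apply, permHom_ofc]

theorem hd_act {G : Type} [Group G] [MulAction G ι] (g : G) (n : CoprodI (fun _ : ι => M))
    (i : ι) : hd (g • i) (permAct g n) = hd i n :=
  hd_perm (MulAction.toPerm g) n i

end Perm

end Pool.Agent.Y33.GP
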