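import Pool.Agent.Y33.GP.Window

/-! # The divergence argument -/

set_option autoImplicit false

namespace Pool.Agent.Y33.GP

open Pool.Agent.H659R3.MorseLim Pool.Agent.Y33.Free

variable {V : Type} {H : V → Type} [∀ v, Group (H v)] {G : Type} [Group G]

namespace Sys

variable {S : Sys H G}

theorem UP.app {n n' : ℕ} {p p' : ℕ → G} (h : S.UP n p) (h' : S.UP n' p') (e : p' 0 = p n) :
    S.UP (n + n') (app p n p') := by
  intro i hi
  rcases lt_or_ge i n with h1 | h1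
  · rw [app_le h1.le, app_le h1]
    exact h i h1
  · obtain ⟨j, rfl⟩ := Nat.exists_eq_add_of_le h1
    rw [add_assoc, app_add e, app_add e]
    exact h' j (by omega)

theorem UP.const (n : ℕ) (x : G) : S.UP n (fun _ => x) := fun _ _ => by simp

theorem fill {m L : ℕ} {q : ℕ → G} (hq : QG S.A m L q) {t : ℕ} {k : ℕ} (h : t + k ≤ L) :
    ∃ (n : ℕ) (p : ℕ → G), S.UP n p ∧ p 0 = q t ∧ p n = q (t + k) ∧ n ≤ 2 * m * k ∧
      ∀ i ≤ n, ∃ t ≤ L, S.A.dist (p i) (q t) ≤ 2 * m := by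
  induction k with
  | zero =>
    refine ⟨0, fun _ => q t, UP.const _ _, rfl, rfl, by omega, fun i _ => ⟨t, h, by simp⟩⟩
  | succ k ih =>
    obtain ⟨n, p, h1, h2, h3, h4, h5⟩ := ih (by omega)
    obtain ⟨g, g1, g2, g3⟩ := exists_geo S.A (q (t + k)) (q (t + k + 1))
    have hd := (hq (t + k) 1 (by omega)).1
    have e : g 0 = p n := by rw [g2, h3]
    refine ⟨n + S.A.dist (q (t + k)) (q (t + k + 1)), app p n g, h1.app g1.up e, ?_, ?_, ?_, ?_⟩
    · rw [app_le (Nat.zero_le _), h2]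
    · rw [app_add e, g3, add_assoc]
    · have : 2 * m * (k + 1) = 2 * m * k + 2 * m := by ring
      omega
    · intro i hi
      rcases le_or_gt i n with hin | hin
      · rw [app_le hin]
        exact h5 i hin
      · obtain ⟨j, rfl⟩ := Nat.exists_eq_add_of_le hin.le
        rw [app_add e]
        refine ⟨t + k, by omega, ?_⟩
        have := g1 0 j (by omega)
        rw [zero_add, g2] at this
        rw [S.A.dist_comm]
        omega

theorem fill' {m L : ℕ} {q : ℕ → G} (hq : QG S.A m L q) {t t' : ℕ} (ht : t ≤ L) (ht' : t' ≤ L) :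
    ∃ (n : ℕ) (p : ℕ → G), S.UP n p ∧ p 0 = q t ∧ p n = q t' ∧
      n ≤ 2 * m * (m * S.A.dist (q t) (q t') + m) ∧
      ∀ i ≤ n, ∃ t ≤ L, S.A.dist (p i) (q t) ≤ 2 * m := by
  rcases le_total t t' with h | h
  · obtain ⟨k, rfl⟩ := Nat.exists_eq_add_of_le h
    obtain ⟨n, p, h1, h2, h3, h4, h5⟩ := fill hq ht'
    have h6 := (hq t k ht').2
    exact ⟨n, p, h1, h2, h3, h4.trans (Nat.mul_le_mul_left _ h6), h5⟩
  · obtain ⟨k, rfl⟩ := Nat.exists_eq_add_of_le h
    obtain ⟨n, p, h1, h2, h3, h4, h5⟩ := fill hq ht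
    have h6 := (hq t' k ht).2
    rw [S.A.dist_comm (q (t' + k)) (q t')]
    refine ⟨n, fun i => p (n - i), h1.rev, by simpa using h3, by simpa using h2,
      h4.trans (Nat.mul_le_mul_left _ h6), fun i hi => h5 (n - i) (by omega)⟩

/-- Going back to an earlier parallel wall. -/
theorem visit {n : ℕ} {β : ℕ → G} (hβ : S.UP n β) {l : ℕ} {g : ℕ → G} (hg : Geo S.A l g) {u : ℕ}
    (h0 : β 0 = g u) {i' i : ℕ} {v : V} (hui : u ≤ i') (hi : i' < i) (hil : i ≤ l)
    (hs : ∃ s : H v, (S.B v).len s = 1 ∧ g (i' + 1) = g i' * S.ι v s)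
    (hne : ¬ S.inC (st S.Γ v) (g i') (g i)) {s : ℕ} (hsn : s ≤ n)
    (hin : S.inC (st S.Γ v) (g i) (β s)) : ∃ s' < s, S.inC (st S.Γ v) (g i') (β s') := by
  obtain ⟨a, ha, ha'⟩ := hs
  have h1 := geo_sep (hg.sub (a := u) (l' := i - u) (by omega)) (i := i' - u) (v := v) (a := a)
    (c := g i') (by omega) (S.ne_one_of_len ha) (by
      have e1 : u + (i' - u + 1) = i' + 1 := by omega
      have e2 : u + (i' - u) = i' := by omega
      simp only [e1, e2]
      exact ha') (by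
      have e2 : u + (i' - u) = i' := by omega
      simp only [e2]
      exact inC.refl _ _)
  have e3 : u + (i - u) = i := by omega
  simp only [add_zero, e3] at h1
  rw [const_on hne (inC.refl _ _) hin, ← h0] at h1
  have hup : S.UP s β := fun i hi => hβ i (by omega)
  obtain ⟨s', hs', h2, -⟩ := hup.cross h1
  exact ⟨s', hs', h2⟩

/-- The lengths of the passages between successive pairs of parallel walls add up. -/
theorem chain {n : ℕ} {β : ℕ → G} (hβ : S.UP n β) {l : ℕ} {g : ℕ → G} (hg : Geo S.A l g) {u : ℕ}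
    (h0 : β 0 = g u) {v : V} {C r : ℕ} {i₀ i₁ : ℕ → ℕ}
    (h1 : ∀ k < r, u ≤ i₀ k ∧ i₀ k < i₁ k ∧ i₁ k < l) (h2 : ∀ k, k + 1 < r → i₁ k < i₀ (k + 1))
    (h3 : ∀ k < r, (∃ s : H v, (S.B v).len s = 1 ∧ g (i₀ k + 1) = g (i₀ k) * S.ι v s) ∧
      (∃ s : H v, (S.B v).len s = 1 ∧ g (i₁ k + 1) = g (i₁ k) * S.ι v s) ∧
      ¬ S.inC (st S.Γ v) (g (i₀ k)) (g (i₁ k)))
    (hC : ∀ k < r, ∀ s ≤ n, ∀ s' ≤ n, S.inC (st S.Γ v) (g (i₀ k)) (β s) →
      S.inC (st S.Γ v) (g (i₁ k)) (β s') → C ≤ S.A.dist (β s) (β s')) :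
    ∀ k < r, ∀ s ≤ n, S.inC (st S.Γ v) (g (i₁ k)) (β s) → (k + 1) * C ≤ s := by
  intro k
  induction k with
  | zero =>
    intro hk s hs hin
    obtain ⟨a1, a2, a3⟩ := h1 0 hk
    obtain ⟨b1, b2, b3⟩ := h3 0 hk
    obtain ⟨σ, hσ, c1⟩ := visit hβ hg h0 a1 a2 a3.le b1 b3 hs hin
    have := hC 0 hk σ (by omega) s hs c1 hin
    obtain ⟨j, rfl⟩ := Nat.exists_eq_add_of_le hσ.le
    have := hβ.dist_le hs
    omega
  | succ k ih =>
    intro hk s hs hin
    obtain ⟨a1, a2, a3⟩ := h1 (k + 1) hk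
    obtain ⟨b1, b2, b3⟩ := h3 (k + 1) hk
    obtain ⟨σ, hσ, c1⟩ := visit hβ hg h0 a1 a2 a3.le b1 b3 hs hin
    have hd := hC (k + 1) hk σ (by omega) s hs c1 hin
    have hσ' : (k + 1) * C ≤ σ := by
      obtain ⟨a4, a5, a6⟩ := h1 k (by omega)
      obtain ⟨b4, b5, b6⟩ := h3 k (by omega)
      by_cases hsame : S.inC (st S.Γ v) (g (i₁ k)) (g (i₀ (k + 1)))
      · exact ih (by omega) σ (by omega) (hsame.trans c1)
      · obtain ⟨σ', hσ', c2⟩ := visit hβ hg h0 (by omega) (h2 k hk) (by omega) b5 hsame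
          (by omega) c1
        exact (ih (by omega) σ' (by omega) c2).trans hσ'.le
    obtain ⟨j, rfl⟩ := Nat.exists_eq_add_of_le hσ.le
    have := hβ.dist_le hs
    have e : (k + 1 + 1) * C = (k + 1) * C + C := by ring
    omega

/-- The window size. -/
noncomputable def kW (V : Type) (M : ℕ → ℕ) (B₁ : ℕ) : ℕ := Nat.card V * (B₁ * (2 * pD M + 4)) + 1

/-- The final recurrence gauge. -/
noncomputable def gF (V : Type) (M D₂ : ℕ → ℕ) (B₁ c₀ m : ℕ) : ℕ :=
  2 * D₂ m + 4 * (2 * m + c₀ + gU M 1) + 2 * (Nat.card V * (48 * (m * m) + 13) * kW V M B₁) +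
    152 * (m * m) + 39

theorem core [Finite V] {M : ℕ → ℕ} {l K : ℕ} {g : ℕ → G} (hg : Geo S.A l g)
    (hM : LocR S.A M K l g) (hK : 4 * M 6 + 4 ≤ K) {B₁ : ℕ} (hB : 4 * M 6 + 4 ≤ B₁)
    (hB' : ∀ v, Finite (H v) → Nat.card (H v) ≤ B₁) (hKW : kW V M B₁ ≤ K) {c₀ : ℕ}
    (hc₀ : ∀ Λ : Set V, ¬ S.Unb Λ → ∀ p ∈ S.sp Λ, S.A.len p ≤ c₀) {D₂ : ℕ → ℕ}
    (hiso : ∀ v, ¬ S.Good v → ∀ i < l, ∀ s : H v, (S.B v).len s = 1 →
      g (i + 1) = g i * S.ι v s → ∀ m, 1 ≤ m → R S.A m (D₂ m) (g 0) (g i) (g l))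
    {m : ℕ} (hm : 1 ≤ m) {b : ℕ} (hb : b ≤ l) :
    R S.A m (gF V M D₂ B₁ c₀ m) (g 0) (g b) (g l) := by
  classical
  intro L q hq h0 hL
  have hnear : ∀ u, ∃ t ≤ L, ∀ i ≤ L, S.A.dist (q t) (g u) ≤ S.A.dist (q i) (g u) :=
    fun u => exists_nearest S.A L q (g u)
  choose τ hτ hτm using hnear
  obtain ⟨u, hu, hmax⟩ := Finset.exists_max_image (Finset.range (l + 1))
    (fun u => S.A.dist (q (τ u)) (g u)) ⟨0, by simp⟩
  have hul : u ≤ l := by simpa [Nat.lt_succ_iff] using hu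
  set Ds := S.A.dist (q (τ u)) (g u) with hDs
  have hD1 : ∀ x ≤ l, S.A.dist (q (τ x)) (g x) ≤ Ds := by
    intro x hx
    exact hmax x (by simpa [Nat.lt_succ_iff] using hx)
  have hD2 : ∀ t ≤ L, Ds ≤ S.A.dist (q t) (g u) := fun t ht => hτm u t ht
  by_cases hle : Ds ≤ gF V M D₂ B₁ c₀ m
  · exact ⟨τ b, hτ b, (hD1 b hb).trans hle⟩
  exfalso
  push Not at hle
  unfold gF at hle
  have hu1 : Ds ≤ u := by
    have := hD2 0 (Nat.zero_le _)
    rw [h0] at this
    have e := hg 0 u (by omega)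
    rw [zero_add] at e
    omega
  have hu2 : u + Ds ≤ l := by
    have := hD2 L le_rfl
    rw [hL, S.A.dist_comm] at this
    have e := hg u (l - u) (by omega)
    have e' : u + (l - u) = l := by omega
    rw [e'] at e
    omega
  set r := 48 * (m * m) + 13 with hr
  set R0 := Nat.card V * r with hR0
  set K' := kW V M B₁ with hK'
  set X0 := R0 * K' with hX0
  have hX : 2 * X0 ≤ Ds := by omega
  -- steps in the window are good
  have hgood : ∀ i, u ≤ i → i < u + X0 → ∀ v (s : H v), (S.B v).len s = 1 →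
      g (i + 1) = g i * S.ι v s → S.Good v := by
    intro i h1 h2 v s h3 h4
    by_contra hng
    obtain ⟨t, ht, hd⟩ := hiso v hng i (by omega) s h3 h4 m hm L q hq h0 hL
    have t1 := hD2 t ht
    have t2 := S.A.dist_triangle (q t) (g i) (g u)
    have t3 := hg u (i - u) (by omega)
    have e : u + (i - u) = i := by omega
    rw [e, S.A.dist_comm] at t3
    omega
  -- the pairs
  have hkk : ∀ k, k < R0 → (k + 1) * K' ≤ X0 := fun k hk => Nat.mul_le_mul_right K' hk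
  have hpairs : ∀ k, ∃ (v : V) (i₀ i₁ j : ℕ), k < R0 → u + k * K' ≤ i₀ ∧ i₀ < i₁ ∧
      i₁ < u + (k + 1) * K' ∧ u ≤ j ∧ j ≤ u + X0 ∧
      (∃ s : H v, (S.B v).len s = 1 ∧ g (i₀ + 1) = g i₀ * S.ι v s) ∧
      (∃ s : H v, (S.B v).len s = 1 ∧ g (i₁ + 1) = g i₁ * S.ι v s) ∧
      ¬ S.inC (st S.Γ v) (g i₀) (g i₁) ∧
      ∀ z w, S.inC (st S.Γ v) (g i₀) z → S.inC (st S.Γ v) (g i₁) w →
        S.A.dist z (g j) ≤ S.A.dist z w + c₀ + gU M 1 := by
    intro k
    obtain ⟨v₀, -⟩ := S.step_eq (hg 0 1 (by omega))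
    by_cases hk : k < R0
    · have h1 := hkk k hk
      have h2 : (k + 1) * K' = k * K' + K' := by ring
      obtain ⟨v, T, hT1, hT2, hT3⟩ := window (S := S) hg hM hK hB hB' (N := 2 * pD M + 4)
        (a := u + k * K') (K' := K') (by rw [hK']; unfold kW; omega)
        (by rw [hK']; unfold kW; omega) (by omega)
        (fun i h3 h4 => hgood i (by omega) (by omega))
      obtain ⟨i₀, m0, i₁, m1, hlt, j, hj1, hj2, hj3⟩ := pair_exists (S := S) hg
        (a := u + k * K') (b := u + k * K' + K') (by omega) (by omega) (by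
          have := hM (u + k * K') K' (by omega) hKW
          have e : u + k * K' + K' - (u + k * K') = K' := by omega
          rw [e]
          exact this) hT2 hT3 hT1 hc₀
      obtain ⟨b1, b2, b3⟩ := hT2 i₀ m0
      obtain ⟨b4, b5, b6⟩ := hT2 i₁ m1
      refine ⟨v, i₀, i₁, j, fun _ => ⟨b1, hlt, by omega, by omega, by omega, b3, b6, ?_, hj3⟩⟩
      intro h
      have := hT3 _ m0 _ m1 h
      omega
    · exact ⟨v₀, 0, 0, 0, fun h => absurd h hk⟩
  choose vk i₀ i₁ j hp using hpairs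
  have hfV := Fintype.ofFinite V
  obtain ⟨v₀, -⟩ := S.step_eq (hg 0 1 (by omega))
  obtain ⟨v, -, hv⟩ := Finset.exists_le_card_fiber_of_mul_le_card_of_maps_to
    (s := Finset.range R0) (t := (Finset.univ : Finset V)) (f := vk) (n := r)
    (fun _ _ => Finset.mem_univ _) ⟨v₀, Finset.mem_univ _⟩ (by
      rw [Finset.card_univ, ← Nat.card_eq_fintype_card, Finset.card_range])
  set X := (Finset.range R0).filter (fun x => vk x = v) with hXd
  set e : Fin X.card ↪o ℕ := X.orderEmbOfFin rfl with he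
  have hex : ∀ x, ∃ y, ∀ h : x < X.card, y = e ⟨x, h⟩ := by
    intro x
    by_cases h : x < X.card
    · exact ⟨e ⟨x, h⟩, fun _ => rfl⟩
    · exact ⟨0, fun h' => absurd h' h⟩
  choose κ hκ using hex
  have hκX : ∀ x < X.card, κ x < R0 ∧ vk (κ x) = v := by
    intro x hx
    rw [hκ x hx]
    have := Finset.mem_filter.1 (X.orderEmbOfFin_mem rfl ⟨x, hx⟩)
    exact ⟨Finset.mem_range.1 this.1, this.2⟩
  have hκm : ∀ x, x + 1 < X.card → κ x < κ (x + 1) := by
    intro x hx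
    rw [hκ x (by omega), hκ (x + 1) hx]
    exact e.strictMono (by
      rw [Fin.lt_def]; exact Nat.lt_succ_self x)
  -- the path
  have ends : ∀ x ≤ l, ((∃ t ≤ L, q t = g x) ∨ 2 * Ds ≤ S.A.dist (g x) (g u)) →
      ∃ t ≤ L, ∃ n ≤ Ds, ∃ p : ℕ → G, S.UP n p ∧ p 0 = g x ∧ p n = q t ∧
        ∀ i ≤ n, Ds ≤ S.A.dist (p i) (g u) := by
    rintro x hx (⟨t, ht, h1⟩ | h1)
    · refine ⟨t, ht, 0, Nat.zero_le _, fun _ => g x, UP.const _ _, rfl, h1.symm, fun i _ => ?_⟩
      simp only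
      rw [← h1]
      exact hD2 t ht
    · obtain ⟨p, p1, p2, p3⟩ := exists_geo S.A (g x) (q (τ x))
      have h2 := hD1 x hx
      rw [S.A.dist_comm] at h2
      refine ⟨τ x, hτ x, _, h2, p, p1.up, p2, p3, fun i hi => ?_⟩
      have h3 := p1 0 i (by omega)
      rw [zero_add, p2] at h3
      have h4 := S.A.dist_triangle (g x) (p i) (g u)
      omega
  obtain ⟨t1, ht1, n1, hn1, p1, u1, a1, a2, a3⟩ := ends (u - 2 * Ds) (by omega) (by
    rcases le_or_gt u (2 * Ds) with h | h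
    · left
      refine ⟨0, Nat.zero_le _, ?_⟩
      have : u - 2 * Ds = 0 := by omega
      rw [this, h0]
    · right
      have := hg (u - 2 * Ds) (2 * Ds) (by omega)
      have e : u - 2 * Ds + 2 * Ds = u := by omega
      rw [e] at this
      omega)
  obtain ⟨t3, ht3, n3, hn3, p3, u3, b1, b2, b3⟩ := ends (min l (u + 2 * Ds)) (by omega) (by
    rcases le_or_gt l (u + 2 * Ds) with h | h
    · left
      refine ⟨L, le_rfl, ?_⟩
      rw [min_eq_left h, hL]
    · right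
      have := hg u (2 * Ds) (by omega)
      rw [min_eq_right h.le, S.A.dist_comm]
      omega)
  obtain ⟨n2, p2, u2, c1, c2, c3, c4⟩ := fill' hq ht1 ht3
  set up := min l (u + 2 * Ds) with hup
  set um := u - 2 * Ds with hum
  have hend : S.A.dist (g um) (g up) ≤ 4 * Ds := by
    have := hg um (up - um) (by omega)
    have e : um + (up - um) = up := by omega
    rw [e] at this
    omega
  have hq13 : S.A.dist (q t1) (q t3) ≤ 6 * Ds := by
    have w1 := u1.dist_le (a := 0) (k := n1) (by omega)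
    have w3 := u3.dist_le (a := 0) (k := n3) (by omega)
    rw [zero_add, a1, a2] at w1
    rw [zero_add, b1, b2] at w3
    have w4 := S.A.dist_triangle (q t1) (g um) (q t3)
    have w5 := S.A.dist_triangle (g um) (g up) (q t3)
    rw [S.A.dist_comm (q t1) (g um)] at w4
    omega
  have e12 : p2 0 = p1 n1 := by rw [c1, a2]
  have e23 : (fun i => p3 (n3 - i)) 0 = app p1 n1 p2 (n1 + n2) := by
    rw [app_add e12, c2]
    simpa using b2
  set β := app (app p1 n1 p2) (n1 + n2) (fun i => p3 (n3 - i)) with hβd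
  have hβ : S.UP (n1 + n2 + n3) β := (u1.app u2 e12).app u3.rev e23
  have hβ0 : β 0 = g um := by
    rw [hβd, app_le (Nat.zero_le _), app_le (Nat.zero_le _), a1]
  have hβn : β (n1 + n2 + n3) = g up := by
    rw [hβd, app_add e23]
    simpa using b1
  have hβfar : ∀ i ≤ n1 + n2 + n3, Ds ≤ S.A.dist (β i) (g u) + 2 * m := by
    intro i hi
    rcases le_or_gt i (n1 + n2) with h1 | h1
    · rw [hβd, app_le h1]
      rcases le_or_gt i n1 with h2 | h2
      · rw [app_le h2]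
        have := a3 i h2
        omega
      · obtain ⟨x, rfl⟩ := Nat.exists_eq_add_of_le h2.le
        rw [app_add e12]
        obtain ⟨t, ht, h3⟩ := c4 x (by omega)
        have h4 := hD2 t ht
        have h5 := S.A.dist_triangle (q t) (p2 x) (g u)
        rw [S.A.dist_comm (q t) (p2 x)] at h5
        omega
    · obtain ⟨x, rfl⟩ := Nat.exists_eq_add_of_le h1.le
      rw [hβd, app_add e23]
      have := b3 (n3 - x) (by omega)
      omega
  -- the chain
  have hch := chain (S := S) hβ hg hβ0 (v := v) (C := Ds / 4) (r := X.card)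
    (i₀ := fun x => i₀ (κ x)) (i₁ := fun x => i₁ (κ x)) (by
      intro x hx
      obtain ⟨h1, h2⟩ := hκX x hx
      obtain ⟨d1, d2, d3, -⟩ := hp (κ x) h1
      have := hkk _ h1
      omega) (by
      intro x hx
      obtain ⟨h1, h2⟩ := hκX x (by omega)
      obtain ⟨h3, h4⟩ := hκX (x + 1) hx
      obtain ⟨d1, d2, d3, -⟩ := hp (κ x) h1
      obtain ⟨d4, d5, d6, -⟩ := hp (κ (x + 1)) h3
      have h5 : (κ x + 1) * K' ≤ κ (x + 1) * K' := Nat.mul_le_mul_right K' (hκm x hx)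
      omega) (by
      intro x hx
      obtain ⟨h1, h2⟩ := hκX x hx
      obtain ⟨-, -, -, -, -, d6, d7, d8, -⟩ := hp (κ x) h1
      rw [h2] at d6 d7 d8
      exact ⟨d6, d7, d8⟩) (by
      intro x hx s hs s' hs' hin hin'
      obtain ⟨h1, h2⟩ := hκX x hx
      obtain ⟨-, -, -, d4, d5, -, -, -, d9⟩ := hp (κ x) h1
      rw [h2] at d9
      have w1 := d9 _ _ hin hin'
      have w2 := hβfar s hs
      have w3 := hg u (j (κ x) - u) (by omega)
      have e : u + (j (κ x) - u) = j (κ x) := by omega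
      rw [e] at w3
      have w4 := S.A.dist_triangle (β s) (g (j (κ x))) (g u)
      rw [S.A.dist_comm (g (j (κ x)))] at w4
      omega)
  have hX1 : r ≤ X.card := hv
  have hr13 : 13 ≤ r := by omega
  obtain ⟨hl1, hl2⟩ := hκX (X.card - 1) (by omega)
  obtain ⟨d1, d2, d3, -, -, -, ⟨s, d7, d7'⟩, -, -⟩ := hp (κ (X.card - 1)) hl1
  have hkl := hkk _ hl1
  have hsep := geo_sep (hg.sub (a := um) (l' := up - um) (by omega))
    (i := i₁ (κ (X.card - 1)) - um) (a := s) (c := g (i₁ (κ (X.card - 1)))) (by omega)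
    (S.ne_one_of_len d7) (by
      have e1 : um + (i₁ (κ (X.card - 1)) - um + 1) = i₁ (κ (X.card - 1)) + 1 := by omega
      have e2 : um + (i₁ (κ (X.card - 1)) - um) = i₁ (κ (X.card - 1)) := by omega
      simp only [e1, e2]
      exact d7') (by
      have e2 : um + (i₁ (κ (X.card - 1)) - um) = i₁ (κ (X.card - 1)) := by omega
      simp only [e2]
      exact inC.refl _ _)
  have e4 : um + (up - um) = up := by omega
  simp only [add_zero, e4] at hsep
  rw [← hβ0, ← hβn] at hsep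
  obtain ⟨σ, hσ, hσ', -⟩ := hβ.cross hsep
  rw [hl2] at hσ'
  have hfin := hch (X.card - 1) (by omega) σ hσ.le hσ'
  have e5 : X.card - 1 + 1 = X.card := by omega
  rw [e5] at hfin
  have f1 : r * (Ds / 4) ≤ X.card * (Ds / 4) := Nat.mul_le_mul_right _ hX1
  have f2 : n2 ≤ 2 * m * (m * (6 * Ds) + m) :=
    c3.trans (Nat.mul_le_mul_left _ (Nat.add_le_add_right (Nat.mul_le_mul_left m hq13) m))
  have f3 : 2 * m * (m * (6 * Ds) + m) = 12 * (m * m * Ds) + 2 * (m * m) := by ring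
  have f4 : r * (Ds / 4) = 48 * (m * m * (Ds / 4)) + 13 * (Ds / 4) := by rw [hr]; ring
  have f5 : Ds ≤ 4 * (Ds / 4) + 3 := by omega
  have f6 : m * m * Ds ≤ m * m * (4 * (Ds / 4) + 3) := Nat.mul_le_mul_left _ f5
  have f7 : m * m * (4 * (Ds / 4) + 3) = 4 * (m * m * (Ds / 4)) + 3 * (m * m) := by ring
  omega

end Sys

end Pool.Agent.Y33.GP
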