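import Pool.Agent.Y33.GP.Geom

/-! # Additivity, gates and strips -/

set_option autoImplicit false

namespace Pool.Agent.Y33.GP

open Pool.Agent.H659R3.MorseLim Pool.Agent.Y33.Free

variable {V : Type} {H : V → Type} [∀ v, Group (H v)] {G : Type} [Group G]

namespace Sys

variable {S : Sys H G}

theorem dist_wall_step {v : V} {g x y : G} (s : H v) (hx : S.inC (st S.Γ v) g x)
    (hy : S.inC (st S.Γ v) g y) :
    S.A.dist (x * S.ι v s) y + (S.B v).dist (S.co v g x) (S.co v g y) =
      S.A.dist x y + (S.B v).dist (S.co v g x * s) (S.co v g y) := by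
  obtain ⟨l, hl, h1, h2⟩ := S.dist_wall hx hy
  have e : (x * S.ι v s)⁻¹ * y = S.ι v ((S.co v g x * s)⁻¹ * S.co v g y) * l := by
    have : (x * S.ι v s)⁻¹ * y = (S.ι v s)⁻¹ * (x⁻¹ * y) := by group
    rw [this, h1, ← mul_assoc, ← map_inv, ← map_mul, mul_inv_rev, mul_assoc]
  have h3 : S.A.dist (x * S.ι v s) y =
      (S.B v).dist (S.co v g x * s) (S.co v g y) + S.A.len l := by
    rw [FinGen.dist, e, S.len_st hl]
    rfl
  omega

/-- Distances add up along points which are not doubly separated. -/
theorem add_dist {x y z : G}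
    (h : ∀ v g, S.co v g x ≠ S.co v g y → S.co v g y = S.co v g z) :
    S.A.dist x z = S.A.dist x y + S.A.dist y z := by
  induction hn : S.A.dist x y generalizing x with
  | zero => rw [S.A.eq_of_dist hn, zero_add]
  | succ n ih =>
    obtain ⟨p, p1, p2, p3⟩ := exists_geo S.A x y
    rw [hn] at p1 p3
    obtain ⟨v, s, hs, hs1⟩ := S.step_eq (p1 0 1 (by omega))
    rw [zero_add] at hs
    have hy1 : S.A.dist (p 1) y = n := by
      have := p1 1 n (by omega)
      rwa [add_comm 1 n, p3] at this
    have e1 : S.A.dist (p 1) z = n + S.A.dist y z := by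
      refine ih ?_ hy1
      intro w g hne
      refine h w g ?_
      have hup : S.UP n (fun i => p (1 + i)) := p1.up.sub (by omega)
      obtain ⟨i, hi, hc, a, ha, h2⟩ := hup.cross (v := w) (g := g) (by
        simp only [add_zero]
        rw [add_comm 1 n, p3]
        exact hne)
      have := geo_sep p1 (i := 1 + i) (by omega) (S.ne_one_of_len ha) h2 hc
      rwa [p2, p3] at this
    have hc0 : S.inC (st S.Γ v) x (p 0) := by rw [p2]; exact inC.refl _ _
    have hsep : S.co v x x ≠ S.co v x y := by
      have := geo_sep p1 (i := 0) (by omega) (S.ne_one_of_len hs1) hs hc0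
      rwa [p3, p2] at this
    have hxz := h v x hsep
    have hc1 : S.inC (st S.Γ v) x (p 1) := by
      rw [hs]; exact hc0.step (S.mem_st_self v) s
    -- the last visit of `p`
    obtain ⟨i1, a1, a2, a3, a4, -⟩ := p1.up.last (j := 1) (by omega) hc1
    have b1 : S.A.dist x (p i1) = i1 := by
      have := p1 0 i1 (by omega)
      rwa [zero_add, p2] at this
    have b2 : S.A.dist (p 1) (p i1) + 1 = i1 := by
      have := p1 1 (i1 - 1) (by omega)
      have e : 1 + (i1 - 1) = i1 := by omega
      rw [e] at this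
      omega
    have b3 := dist_wall_step (S := S) s (inC.refl _ x) a3
    rw [p2] at hs
    rw [← hs, S.co_self, one_mul, a4, p3] at b3
    -- the last visit of a geodesic to `z`
    obtain ⟨r, r1, r2, r3⟩ := exists_geo S.A x z
    obtain ⟨j1, -, c2, c3, c4, -⟩ := r1.up.last (v := v) (g := x) (j := 0) (by omega)
      (by rw [r2]; exact inC.refl _ _)
    have d1 : S.A.dist x (r j1) = j1 := by
      have := r1 0 j1 (by omega)
      rwa [zero_add, r2] at this
    have d2 : S.A.dist (r j1) z = S.A.dist x z - j1 := by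
      have := r1 j1 (S.A.dist x z - j1) (by omega)
      have e : j1 + (S.A.dist x z - j1) = S.A.dist x z := by omega
      rwa [e, r3] at this
    have d3 := dist_wall_step (S := S) s (inC.refl _ x) c3
    rw [← hs, S.co_self, one_mul, c4, r3, ← hxz] at d3
    have t1 := S.A.dist_triangle (p 1) (r j1) z
    have t2 := S.A.dist_triangle x y z
    omega

/-- `y` is the gate of `x` in the coset `y ⟨Λ⟩`. -/
def Gate (S : Sys H G) (Λ : Set V) (x y : G) : Prop :=
  ∀ w ∈ Λ, ∀ k, S.inC Λ y k → S.co w k x = S.co w k y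

theorem Gate.add {Λ : Set V} {x y k : G} (h : S.Gate Λ x y) (hk : S.inC Λ y k) :
    S.A.dist x k = S.A.dist x y + S.A.dist y k := by
  refine add_dist ?_
  intro v g hne
  by_contra hne2
  obtain ⟨h1, k', h2, h3⟩ := S.coset_cross (inC.refl Λ y) hk hne2
  have := h v h1 k' h2
  rw [S.co_sep h3] at this
  exact hne this

theorem exists_gate (S : Sys H G) (Λ : Set V) (x c : G) : ∃ y, S.inC Λ c y ∧ S.Gate Λ x y := by
  classical
  have hex : ∃ n, ∃ y, S.inC Λ c y ∧ S.A.dist y x = n := ⟨_, c, inC.refl _ _, rfl⟩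
  obtain ⟨y, hy, hyn⟩ := Nat.find_spec hex
  have hmin : ∀ y', S.inC Λ c y' → S.A.dist y x ≤ S.A.dist y' x := by
    intro y' hy'
    rw [hyn]
    exact Nat.find_min' hex ⟨y', hy', rfl⟩
  refine ⟨y, hy, ?_⟩
  obtain ⟨p, p1, p2, p3⟩ := exists_geo S.A y x
  have key : ∀ i ≤ S.A.dist y x, S.Gate Λ (p i) y := by
    intro i
    induction i with
    | zero =>
      intro _
      rw [p2]
      exact fun w _ k _ => rfl
    | succ i ih =>
      intro hi
      have ih' := ih (by omega)
      obtain ⟨v, a, h1, h2⟩ := S.step_eq (p1 i 1 hi)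
      intro w hw k hk
      rw [h1]
      by_cases hwv : v = w
      · subst hwv
        by_cases hc : S.inC (st S.Γ v) k (p i)
        · exfalso
          have e1 := ih'.add hk
          have e2 : S.inC (st S.Γ v) k y := by
            refine S.conv hc (inC.refl _ k) e1.symm
          have e3 : S.inC (st S.Γ v) y (p i) := e2.symm.trans hc
          have e4 := S.inC_lk (inC.refl _ y) e3 (ih' v hw y (inC.refl _ _)).symm
          have e5 : p (i + 1) = y * S.ι v a * (y⁻¹ * p i) := by
            rw [h1, mul_assoc y, ← S.lk_comm e4 a]; group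
          have e6 : S.A.dist (y * S.ι v a) (p (i + 1)) = i := by
            rw [e5, FinGen.dist]
            have : (y * S.ι v a)⁻¹ * (y * S.ι v a * (y⁻¹ * p i)) = y⁻¹ * p i := by group
            rw [this]
            have := p1 0 i (by omega)
            rwa [zero_add, p2] at this
          have e7 := p1 (i + 1) (S.A.dist y x - (i + 1)) (by omega)
          have e8 : i + 1 + (S.A.dist y x - (i + 1)) = S.A.dist y x := by omega
          rw [e8, p3] at e7
          have e9 := hmin (y * S.ι v a) (hy.step hw a)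
          have t := S.A.dist_triangle (y * S.ι v a) (p (i + 1)) x
          omega
        · rw [S.co_not hc]
          exact ih' v hw k hk
      · rw [S.co_ne hwv]
        exact ih' w hw k hk
  have := key _ le_rfl
  rwa [p3] at this

theorem Gate.step {Λ : Set V} {x y : G} (h : S.Gate Λ x y) {w : V} (hw : w ∈ Λ) (b : H w)
    (hl : S.inC (st S.Γ w) x y) : S.Gate Λ (x * S.ι w b) (y * S.ι w b) := by
  intro u hu k hk
  have hk' : S.inC Λ y k := ((inC.refl Λ y).step hw b).trans hk
  have e := h u hu k hk'
  by_cases hwu : w = u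
  · subst hwu
    by_cases hc : S.inC (st S.Γ w) k x
    · rw [S.co_mem hc, S.co_mem (hc.trans hl), e]
    · rw [S.co_not hc, S.co_not fun hh => hc (hh.trans hl.symm), e]
  · rw [S.co_ne hwu, S.co_ne hwu, e]

/-- Gates of the points of a wall in a parallel wall. -/
theorem strip {v : V} {x x' z y' : G} (hne : ¬ S.inC (st S.Γ v) x x')
    (h1 : S.Gate (st S.Γ v) x' x) (h2 : S.Gate (st S.Γ v) x x') (hz : S.inC (st S.Γ v) x z)
    (hy' : S.inC (st S.Γ v) x' y') (h3 : S.Gate (st S.Γ v) z y') :
    S.inC {w | x⁻¹ * x' ∈ S.sp (lk S.Γ w)} x' y' := by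
  obtain ⟨p, p1, p2, p3⟩ := exists_geo S.A x' y'
  set n := S.A.dist x' y' with hn
  have hst := conv_steps p1 (Λ := st S.Γ v) (by rw [p2, p3]; exact hy')
  have key : ∀ i ≤ n, S.inC {w | x⁻¹ * x' ∈ S.sp (lk S.Γ w)} x' (p i) ∧
      ∃ q, S.inC (st S.Γ v) x q ∧ q⁻¹ * p i = x⁻¹ * x' ∧ S.Gate (st S.Γ v) q (p i) ∧
        S.Gate (st S.Γ v) (p i) q := by
    intro i
    induction i with
    | zero =>
      intro _
      rw [p2]
      exact ⟨inC.refl _ _, x, inC.refl _ _, rfl, h2, h1⟩
    | succ i ih =>
      intro hi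
      obtain ⟨ha, q, hq1, hq2, hq3, hq4⟩ := ih (by omega)
      obtain ⟨w, b, hb, hb1⟩ := S.step_eq (p1 i 1 hi)
      have hb0 := S.ne_one_of_len hb1
      have hw := hst.2 i (by omega) w b hb0 hb
      have hpi := hst.1 i (by omega)
      rw [p2] at hpi
      -- the wall separates `p i` from `y'`
      obtain ⟨k, hk⟩ := Nat.exists_eq_add_of_le (show i ≤ n by omega)
      have s1 : S.co w (p i) (p i) ≠ S.co w (p i) y' := by
        have := geo_sep (p1.sub (a := i) (l' := k) (by omega)) (i := 0) (by omega) hb0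
          (by simpa using hb) (c := p i) (by simpa using inC.refl _ (p i))
        simp only [add_zero] at this
        rwa [← hk, p3] at this
      have s2 := h3 w hw (p i) (hy'.symm.trans hpi)
      have s3 := hq3 w hw (p i) (inC.refl _ _)
      obtain ⟨-, k, k1, k2⟩ := S.coset_cross hq1 hz (v := w) (g := p i) (by rw [s2, s3]; exact s1)
      have hwv : w ≠ v := by
        rintro rfl
        exact hne (k1.trans (k2.symm.trans hpi.symm))
      have e1 := hq4.add (hq1.symm.trans k1)
      have e2 : S.inC (st S.Γ w) (p i) q := S.conv (inC.refl _ _) k2 e1.symm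
      have e3 := S.inC_lk (inC.refl _ (p i)) e2 s3.symm
      have e4 : x⁻¹ * x' ∈ S.sp (lk S.Γ w) := by
        rw [← hq2]; exact e3.symm
      refine ⟨?_, q * S.ι w b, hq1.step hw b, ?_, ?_, ?_⟩
      · rw [hb]
        exact ha.step e4 b
      · rw [hb]
        have : (q * S.ι w b)⁻¹ * (p i * S.ι w b) = (S.ι w b)⁻¹ * (q⁻¹ * p i * S.ι w b) := by
          group
        rw [this, hq2, S.lk_comm e4 b]
        group
      · rw [hb]
        exact hq3.step hw b e2.symm
      · rw [hb]
        exact hq4.step hw b e2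
  have := (key n le_rfl).1
  rwa [p3] at this

end Sys

end Pool.Agent.Y33.GP
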