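import Pool.Agent.Y33.GP.Sys
import Pool.Agent.Y33.Free.Ray

/-! # Geometry of graph products: special subgroups, walls, gates -/

set_option autoImplicit false

namespace Pool.Agent.Y33.GP

open Pool.Agent.H659R3.MorseLim Pool.Agent.Y33.Free

variable {V : Type} {H : V → Type} [∀ v, Group (H v)] {G : Type} [Group G]

namespace Sys

variable (S : Sys H G)

theorem letter {x : G} (h : x ∈ S.A.S ∨ x⁻¹ ∈ S.A.S) :
    ∃ v a, x = S.ι v a ∧ (a ∈ (S.B v).S ∨ a⁻¹ ∈ (S.B v).S) := by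
  rw [S.A_S] at h
  rcases h with h | h
  · obtain ⟨v, hv⟩ := Set.mem_iUnion.1 h
    obtain ⟨a, ha, rfl⟩ := hv
    exact ⟨v, a, rfl, Or.inl ha⟩
  · obtain ⟨v, hv⟩ := Set.mem_iUnion.1 h
    obtain ⟨a, ha, hx⟩ := hv
    refine ⟨v, a⁻¹, ?_, Or.inr (by simpa using ha)⟩
    rw [map_inv, hx, inv_inv]

theorem ind {P : G → Prop} (x : G) (h1 : P 1) (h2 : ∀ v a x, P x → P (S.ι v a * x)) : P x := by
  obtain ⟨l, hl, rfl⟩ := S.A.exists_word x
  induction l with
  | nil => exact h1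
  | cons s l ih =>
    rw [List.prod_cons]
    obtain ⟨v, a, rfl, -⟩ := S.letter (hl s (by simp))
    exact h2 v a _ (ih fun x hx => hl x (List.mem_cons_of_mem _ hx))

theorem κκ (Λ Λ' : Set V) (x : G) : S.κ Λ (S.κ Λ' x) = S.κ (Λ ∩ Λ') x := by
  refine S.ind (P := fun x => S.κ Λ (S.κ Λ' x) = S.κ (Λ ∩ Λ') x) x (by simp) ?_
  intro v a x hx
  rw [map_mul, map_mul, map_mul, hx]
  congr 1
  by_cases h' : v ∈ Λ'
  · rw [S.κ_mem _ _ h']
    by_cases h : v ∈ Λ
    · rw [S.κ_mem _ _ h, S.κ_mem (Λ ∩ Λ') v ⟨h, h'⟩]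
    · rw [S.κ_not _ _ h, S.κ_not (Λ ∩ Λ') v fun hh => h hh.1]
  · rw [S.κ_not _ _ h', map_one, S.κ_not (Λ ∩ Λ') v fun hh => h' hh.2]

theorem κ_empty (x : G) : S.κ ∅ x = 1 := by
  refine S.ind (P := fun x => S.κ ∅ x = 1) x (by simp) ?_
  intro v a x hx
  rw [map_mul, hx, S.κ_not _ _ (by simp), mul_one]

/-- The special subgroup generated by the vertex groups of `Λ`. -/
def sp (Λ : Set V) : Subgroup G := (S.κ Λ).range

theorem mem_sp {Λ : Set V} {x : G} : x ∈ S.sp Λ ↔ S.κ Λ x = x := by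
  constructor
  · rintro ⟨y, rfl⟩
    rw [S.κκ, Set.inter_self]
  · intro h
    exact ⟨x, h⟩

theorem ι_mem {Λ : Set V} {v : V} (h : v ∈ Λ) (a : H v) : S.ι v a ∈ S.sp Λ :=
  S.mem_sp.2 (S.κ_mem _ _ h a)

theorem ι_inj {v : V} {a : H v} (h : S.ι v a = 1) : a = 1 := by
  rw [← S.π_same v a, h, map_one]

theorem mem_of_ι {Λ : Set V} {v : V} {a : H v} (ha : a ≠ 1) (h : S.ι v a ∈ S.sp Λ) : v ∈ Λ := by
  by_contra hv
  rw [S.mem_sp, S.κ_not _ _ hv] at h
  exact ha (S.ι_inj h.symm)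

theorem sp_mono {Λ Λ' : Set V} (h : Λ ⊆ Λ') : S.sp Λ ≤ S.sp Λ' := by
  intro x hx
  rw [S.mem_sp] at hx ⊢
  rw [← hx, S.κκ, Set.inter_eq_self_of_subset_right h]

theorem κ_of_disj {Λ Λ' : Set V} (h : Disjoint Λ Λ') {x : G} (hx : x ∈ S.sp Λ') :
    S.κ Λ x = 1 := by
  rw [S.mem_sp] at hx
  rw [← hx, S.κκ, Set.disjoint_iff_inter_eq_empty.1 h, S.κ_empty]

theorem len_κ (Λ : Set V) (x : G) : S.A.len (S.κ Λ x) ≤ S.A.len x := by
  refine S.A.len_map_le S.A (S.κ Λ) ?_ x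
  intro s hs
  obtain ⟨v, a, rfl, -⟩ := S.letter (Or.inl hs)
  by_cases h : v ∈ Λ
  · rw [S.κ_mem _ _ h]
    exact Or.inl hs
  · rw [S.κ_not _ _ h]
    exact Or.inr rfl

theorem len_ι (v : V) (a : H v) : S.A.len (S.ι v a) = (S.B v).len a := by
  refine le_antisymm ((S.B v).len_map_le S.A (S.ι v) ?_ a) ?_
  · intro s hs
    left
    rw [S.A_S]
    exact Set.mem_iUnion.2 ⟨v, s, hs, rfl⟩
  · have := S.A.len_map_le (S.B v) (S.π v) ?_ (S.ι v a)
    · rwa [S.π_same] at this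
    · intro s hs
      rw [S.A_S] at hs
      obtain ⟨w, b, hb, rfl⟩ := Set.mem_iUnion.1 hs
      by_cases h : v = w
      · subst h
        rw [S.π_same]
        exact Or.inl hb
      · rw [S.π_ne _ _ h]
        exact Or.inr rfl

theorem split {Λ Λ' : Set V} (h : Disjoint Λ Λ') (x : G) :
    S.A.len (S.κ Λ x) + S.A.len (S.κ Λ' x) ≤ S.A.len x := by
  obtain ⟨l, h1, h2, h3⟩ := S.A.len_spec x
  rw [← h1, ← h3]
  clear h1 h3
  induction l with
  | nil => simp
  | cons s l ih =>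
    rw [List.prod_cons, map_mul, map_mul, List.length_cons]
    have ih' := ih (fun x hx => h2 x (List.mem_cons_of_mem _ hx))
    have hs : S.A.len s ≤ 1 := S.A.len_gen (h2 s (by simp))
    obtain ⟨v, a, rfl, -⟩ := S.letter (h2 s (by simp))
    have j1 := S.A.len_mul_le (S.κ Λ (S.ι v a)) (S.κ Λ l.prod)
    have j2 := S.A.len_mul_le (S.κ Λ' (S.ι v a)) (S.κ Λ' l.prod)
    by_cases hv : v ∈ Λ
    · have hv' : v ∉ Λ' := fun hh => Set.disjoint_left.1 h hv hh
      rw [S.κ_not _ _ hv', S.A.len_one] at j2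
      rw [S.κ_mem _ _ hv] at j1
      rw [S.κ_mem _ _ hv, S.κ_not _ _ hv']
      omega
    · rw [S.κ_not _ _ hv, S.A.len_one] at j1
      have := S.len_κ Λ' (S.ι v a)
      rw [S.κ_not _ _ hv]
      omega

theorem comm_sp {Λ Λ' : Set V} (h : ∀ u ∈ Λ, ∀ w ∈ Λ', S.Γ.Adj u w) {x y : G} (hx : x ∈ S.sp Λ)
    (hy : y ∈ S.sp Λ') : x * y = y * x := by
  obtain ⟨x, rfl⟩ := hx
  obtain ⟨y, rfl⟩ := hy
  refine S.ind (P := fun x => S.κ Λ x * S.κ Λ' y = S.κ Λ' y * S.κ Λ x) x (by simp) ?_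
  intro u a x hx
  rw [map_mul, mul_assoc, hx, ← mul_assoc, ← mul_assoc]
  congr 1
  by_cases hu : u ∈ Λ
  · rw [S.κ_mem _ _ hu]
    refine S.ind (P := fun y => S.ι u a * S.κ Λ' y = S.κ Λ' y * S.ι u a) y (by simp) ?_
    intro w b y hy
    rw [map_mul, mul_assoc, ← hy, ← mul_assoc, ← mul_assoc]
    congr 1
    by_cases hw : w ∈ Λ'
    · rw [S.κ_mem _ _ hw]
      exact S.comm u w (h u hu w hw) a b
    · rw [S.κ_not _ _ hw]; simp
  · rw [S.κ_not _ _ hu]; simp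

theorem disj_of_adj {Λ Λ' : Set V} (h : ∀ u ∈ Λ, ∀ w ∈ Λ', S.Γ.Adj u w) : Disjoint Λ Λ' :=
  Set.disjoint_left.2 fun u hu hu' => (h u hu u hu').ne rfl

theorem len_mul {Λ Λ' : Set V} (h : Disjoint Λ Λ') {x y : G} (hx : x ∈ S.sp Λ)
    (hy : y ∈ S.sp Λ') : S.A.len (x * y) = S.A.len x + S.A.len y := by
  refine le_antisymm (S.A.len_mul_le x y) ?_
  have := S.split h (x * y)
  rw [map_mul, map_mul, S.κ_of_disj h hy, S.κ_of_disj h.symm hx, S.mem_sp.1 hx,
    S.mem_sp.1 hy, mul_one, one_mul] at this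
  exact this

theorem mem_st_self (v : V) : v ∈ st S.Γ v := Or.inl rfl

theorem lk_sub_st (v : V) : lk S.Γ v ⊆ st S.Γ v := fun _ h => Or.inr h

theorem lk_comm {v : V} {l : G} (hl : l ∈ S.sp (lk S.Γ v)) (a : H v) :
    l * S.ι v a = S.ι v a * l :=
  S.comm_sp (Λ := lk S.Γ v) (Λ' := {v}) (by
    rintro u hu w rfl
    exact SimpleGraph.Adj.symm hu) hl (S.ι_mem (Set.mem_singleton v) a)

theorem st_decomp {v : V} {x : G} (hx : x ∈ S.sp (st S.Γ v)) :
    ∃ a l, l ∈ S.sp (lk S.Γ v) ∧ x = S.ι v a * l := by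
  obtain ⟨x, rfl⟩ := hx
  refine S.ind (P := fun x => ∃ a l, l ∈ S.sp (lk S.Γ v) ∧ S.κ (st S.Γ v) x = S.ι v a * l) x
    ⟨1, 1, Subgroup.one_mem _, by simp⟩ ?_
  rintro w b x ⟨a, l, hl, h⟩
  rw [map_mul, h]
  by_cases hw : w = v
  · subst hw
    rw [S.κ_mem _ _ (S.mem_st_self w)]
    exact ⟨b * a, l, hl, by rw [map_mul, mul_assoc]⟩
  · by_cases hw' : w ∈ lk S.Γ v
    · rw [S.κ_mem _ _ (S.lk_sub_st v hw')]
      refine ⟨a, S.ι w b * l, Subgroup.mul_mem _ (S.ι_mem hw' b) hl, ?_⟩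
      rw [← mul_assoc, ← mul_assoc, S.lk_comm (S.ι_mem hw' b) a]
    · rw [S.κ_not _ _ (fun hh => hh.elim hw hw'), one_mul]
      exact ⟨a, l, hl, rfl⟩

theorem st_mem {v : V} {a : H v} {l : G} (hl : l ∈ S.sp (lk S.Γ v)) :
    S.ι v a * l ∈ S.sp (st S.Γ v) :=
  Subgroup.mul_mem _ (S.ι_mem (S.mem_st_self v) a) (S.sp_mono (S.lk_sub_st v) hl)

theorem len_st {v : V} {a : H v} {l : G} (hl : l ∈ S.sp (lk S.Γ v)) :
    S.A.len (S.ι v a * l) = (S.B v).len a + S.A.len l := by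
  rw [← S.len_ι]
  refine S.len_mul (Λ := {v}) (Λ' := lk S.Γ v) ?_ (S.ι_mem (Set.mem_singleton v) a) hl
  rw [Set.disjoint_left]
  rintro w rfl hw
  exact SimpleGraph.irrefl _ hw

theorem head_lk {v : V} {l : G} (hl : l ∈ S.sp (lk S.Γ v)) (x : G) :
    S.head v (l * x) = S.head v x := by
  obtain ⟨l, rfl⟩ := hl
  refine S.ind (P := fun l => S.head v (S.κ (lk S.Γ v) l * x) = S.head v x) l (by simp) ?_
  intro w b l hl
  rw [map_mul]
  by_cases h : w ∈ lk S.Γ v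
  · rw [S.κ_mem _ _ h, mul_assoc, S.head_adj v w h, hl]
  · rw [S.κ_not _ _ h, one_mul, hl]

theorem head_st {v : V} {a : H v} {l : G} (hl : l ∈ S.sp (lk S.Γ v)) (x : G) :
    S.head v (S.ι v a * l * x) = a * S.head v x := by
  rw [mul_assoc, S.head_same, S.head_lk hl]

theorem head_st' {v : V} {a : H v} {l : G} (hl : l ∈ S.sp (lk S.Γ v)) :
    S.head v (S.ι v a * l) = a := by
  have := S.head_st (a := a) hl 1
  rwa [mul_one, S.head_one, mul_one] at this

theorem head_mem {v : V} {x : G} (hx : x ∈ S.sp (st S.Γ v)) (b : H v) :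
    S.head v (x * S.ι v b) = S.head v x * b := by
  obtain ⟨a, l, hl, rfl⟩ := S.st_decomp hx
  rw [mul_assoc, S.lk_comm hl, ← mul_assoc, ← map_mul, S.head_st' hl, S.head_st' hl]

/-! ### Cosets -/

/-- `x` lies in the coset `g ⟨Λ⟩`. -/
def inC (Λ : Set V) (g x : G) : Prop := g⁻¹ * x ∈ S.sp Λ

variable {S}

theorem inC.refl (Λ : Set V) (g : G) : S.inC Λ g g := by
  unfold inC
  rw [inv_mul_cancel]
  exact Subgroup.one_mem _

theorem inC.symm {Λ : Set V} {g x : G} (h : S.inC Λ g x) : S.inC Λ x g := by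
  unfold inC at *
  have := Subgroup.inv_mem _ h
  simpa using this

theorem inC.trans {Λ : Set V} {g x y : G} (h : S.inC Λ g x) (h' : S.inC Λ x y) :
    S.inC Λ g y := by
  unfold inC at *
  have := Subgroup.mul_mem _ h h'
  simpa [mul_assoc] using this

theorem inC.mono {Λ Λ' : Set V} {g x : G} (h : S.inC Λ g x) (hΛ : Λ ⊆ Λ') : S.inC Λ' g x :=
  S.sp_mono hΛ h

theorem inC.step {Λ : Set V} {g x : G} (h : S.inC Λ g x) {w : V} (hw : w ∈ Λ) (b : H w) :
    S.inC Λ g (x * S.ι w b) := by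
  unfold inC at *
  rw [← mul_assoc]
  exact Subgroup.mul_mem _ h (S.ι_mem hw b)

variable (S)

/-- The coordinate of `x` at the wall `g ⟨st v⟩`. -/
def co (v : V) (g x : G) : H v := S.head v (g⁻¹ * x)

theorem co_ne {v w : V} (h : w ≠ v) (g x : G) (b : H w) : S.co v g (x * S.ι w b) = S.co v g x := by
  unfold co
  rw [← mul_assoc, S.head_ne v w h]

theorem co_not {v : V} {g x : G} (h : ¬ S.inC (st S.Γ v) g x) (b : H v) :
    S.co v g (x * S.ι v b) = S.co v g x := by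
  unfold co
  rw [← mul_assoc, S.head_not v _ (fun hh => h (S.mem_sp.2 hh))]

theorem co_mem {v : V} {g x : G} (h : S.inC (st S.Γ v) g x) (b : H v) :
    S.co v g (x * S.ι v b) = S.co v g x * b := by
  unfold co
  rw [← mul_assoc, S.head_mem h]

theorem co_self (v : V) (g : G) : S.co v g g = 1 := by
  unfold co
  rw [inv_mul_cancel, S.head_one]

theorem co_change {v : V} {g g' : G} (h : S.inC (st S.Γ v) g g') :
    ∃ a, ∀ x, S.co v g' x = a * S.co v g x := by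
  obtain ⟨a, l, hl, h'⟩ := S.st_decomp h
  refine ⟨a⁻¹, fun x => ?_⟩
  unfold co
  have e : g⁻¹ * x = S.ι v a * l * (g'⁻¹ * x) := by
    rw [← h']; group
  rw [e, S.head_st hl]
  simp

theorem co_sep {v : V} {g g' : G} (h : S.inC (st S.Γ v) g g') {x y : G} :
    S.co v g' x = S.co v g' y ↔ S.co v g x = S.co v g y := by
  obtain ⟨a, ha⟩ := S.co_change h
  rw [ha, ha]
  simp

/-- Two points of a wall with the same coordinate differ by an element of the link. -/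
theorem inC_lk {v : V} {g x y : G} (hx : S.inC (st S.Γ v) g x) (hy : S.inC (st S.Γ v) g y)
    (h : S.co v g x = S.co v g y) : S.inC (lk S.Γ v) x y := by
  obtain ⟨a, l, hl, h1⟩ := S.st_decomp hx
  obtain ⟨a', l', hl', h2⟩ := S.st_decomp hy
  unfold co at h
  rw [h1, h2, S.head_st' hl, S.head_st' hl'] at h
  subst h
  unfold inC
  have : x⁻¹ * y = l⁻¹ * l' := by
    have e : x⁻¹ * y = (g⁻¹ * x)⁻¹ * (g⁻¹ * y) := by group
    rw [e, h1, h2]; group
  rw [this]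
  exact Subgroup.mul_mem _ (Subgroup.inv_mem _ hl) hl'

/-- Distances in a wall. -/
theorem dist_wall {v : V} {g x y : G} (hx : S.inC (st S.Γ v) g x) (hy : S.inC (st S.Γ v) g y) :
    ∃ l ∈ S.sp (lk S.Γ v), x⁻¹ * y = S.ι v ((S.co v g x)⁻¹ * S.co v g y) * l ∧
      S.A.dist x y = (S.B v).dist (S.co v g x) (S.co v g y) + S.A.len l := by
  obtain ⟨a, l, hl, h1⟩ := S.st_decomp hx
  obtain ⟨a', l', hl', h2⟩ := S.st_decomp hy
  have e1 : S.co v g x = a := by unfold co; rw [h1, S.head_st' hl]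
  have e2 : S.co v g y = a' := by unfold co; rw [h2, S.head_st' hl']
  have hm : l⁻¹ * l' ∈ S.sp (lk S.Γ v) := Subgroup.mul_mem _ (Subgroup.inv_mem _ hl) hl'
  have e : x⁻¹ * y = S.ι v (a⁻¹ * a') * (l⁻¹ * l') := by
    have e : x⁻¹ * y = (g⁻¹ * x)⁻¹ * (g⁻¹ * y) := by group
    rw [e, h1, h2, mul_inv_rev, mul_assoc, ← mul_assoc (S.ι v a)⁻¹, ← map_inv, ← map_mul,
      ← mul_assoc, S.lk_comm (Subgroup.inv_mem _ hl), mul_assoc]
  refine ⟨l⁻¹ * l', hm, ?_, ?_⟩
  · rw [e1, e2]; exact e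
  · rw [FinGen.dist, e, S.len_st hm, e1, e2]
    rfl

/-! ### Steps and unit paths -/

theorem step_eq {x y : G} (h : S.A.dist x y = 1) :
    ∃ v a, y = x * S.ι v a ∧ (S.B v).len a = 1 := by
  obtain ⟨v, a, h1, -⟩ := S.letter (S.A.gen_of_len h)
  refine ⟨v, a, ?_, ?_⟩
  · rw [← h1]; group
  · rw [← S.len_ι, ← h1]; exact h

theorem step_le {x y : G} (h : S.A.dist x y ≤ 1) :
    y = x ∨ ∃ v a, y = x * S.ι v a ∧ (S.B v).len a = 1 := by
  rcases Nat.eq_zero_or_pos (S.A.dist x y) with h0 | h0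
  · exact Or.inl (S.A.eq_of_dist h0).symm
  · exact Or.inr (S.step_eq (by omega))

theorem ne_one_of_len {v : V} {a : H v} (h : (S.B v).len a = 1) : a ≠ 1 := by
  rintro rfl
  rw [FinGen.len_one] at h
  omega

/-- Unit paths. -/
def UP (n : ℕ) (p : ℕ → G) : Prop := ∀ i < n, S.A.dist (p i) (p (i + 1)) ≤ 1

variable {S}

theorem _root_.Pool.Agent.Y33.Free.Geo.up {l : ℕ} {g : ℕ → G} (h : Geo S.A l g) : S.UP l g :=
  fun i hi => (h i 1 hi).le

theorem UP.sub {n n' a : ℕ} {p : ℕ → G} (h : S.UP n p) (hn : a + n' ≤ n) :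
    S.UP n' (fun i => p (a + i)) := fun i hi => h (a + i) (by omega)

theorem UP.rev {n : ℕ} {p : ℕ → G} (h : S.UP n p) : S.UP n (fun i => p (n - i)) := by
  intro i hi
  have := h (n - (i + 1)) (by omega)
  have e : n - (i + 1) + 1 = n - i := by omega
  rw [e] at this
  rwa [S.A.dist_comm]

theorem UP.dist_le {n : ℕ} {p : ℕ → G} (h : S.UP n p) {a k : ℕ} (hk : a + k ≤ n) :
    S.A.dist (p a) (p (a + k)) ≤ k := by
  induction k with
  | zero => simp
  | succ k ih =>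
    have h1 := ih (by omega)
    have h2 := h (a + k) (by omega)
    have h3 := S.A.dist_triangle (p a) (p (a + k)) (p (a + k + 1))
    rw [add_assoc a k 1] at h2 h3
    omega

/-- The coordinate changes only in steps inside the wall. -/
theorem UP.cross {n : ℕ} {p : ℕ → G} (h : S.UP n p) {v : V} {g : G}
    (hne : S.co v g (p 0) ≠ S.co v g (p n)) :
    ∃ i < n, S.inC (st S.Γ v) g (p i) ∧ ∃ a, (S.B v).len a = 1 ∧ p (i + 1) = p i * S.ι v a := by
  by_contra hcon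
  push Not at hcon
  refine hne ?_
  have key : ∀ i ≤ n, S.co v g (p 0) = S.co v g (p i) := by
    intro i
    induction i with
    | zero => intro _; rfl
    | succ i ih =>
      intro hi
      rw [ih (by omega)]
      rcases S.step_le (h i (by omega)) with h1 | ⟨w, b, h1, h2⟩
      · rw [h1]
      · by_cases hw : w = v
        · subst hw
          by_cases hc : S.inC (st S.Γ w) g (p i)
          · exact absurd h1 (hcon i (by omega) hc b h2)
          · rw [h1, S.co_not hc]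
        · rw [h1, S.co_ne hw]
  exact key n le_rfl

/-- The last visit to a wall. -/
theorem UP.last {n : ℕ} {p : ℕ → G} (h : S.UP n p) {v : V} {g : G} {j : ℕ} (hj : j ≤ n)
    (hm : S.inC (st S.Γ v) g (p j)) :
    ∃ i, j ≤ i ∧ i ≤ n ∧ S.inC (st S.Γ v) g (p i) ∧ S.co v g (p i) = S.co v g (p n) ∧
      ∀ k, i < k → k ≤ n → ¬ S.inC (st S.Γ v) g (p k) := by
  classical
  obtain ⟨i, h1, h2, h3, h4⟩ : ∃ i, S.inC (st S.Γ v) g (p i) ∧ j ≤ i ∧ i ≤ n ∧
      ∀ k, i < k → k ≤ n → ¬ S.inC (st S.Γ v) g (p k) :=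
    ⟨Nat.findGreatest (fun i => S.inC (st S.Γ v) g (p i)) n,
      Nat.findGreatest_spec (P := fun i => S.inC (st S.Γ v) g (p i)) hj hm,
      Nat.le_findGreatest hj hm, Nat.findGreatest_le n,
      fun k hk hkn => Nat.findGreatest_is_greatest hk hkn⟩
  refine ⟨i, h2, h3, h1, ?_, h4⟩
  by_contra hne
  obtain ⟨k, rfl⟩ := Nat.exists_eq_add_of_le h3
  obtain ⟨t, ht, hc, a, -, ha⟩ := (h.sub (a := i) (n' := k) le_rfl).cross (v := v) (g := g)
    (by simpa using hne)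
  refine h4 (i + (t + 1)) (by omega) (by omega) ?_
  rw [ha]
  exact hc.step (S.mem_st_self v) a

/-- The first visit to a wall. -/
theorem UP.first {n : ℕ} {p : ℕ → G} (h : S.UP n p) {v : V} {g : G} {j : ℕ} (hj : j ≤ n)
    (hm : S.inC (st S.Γ v) g (p j)) :
    ∃ i ≤ j, S.inC (st S.Γ v) g (p i) ∧ S.co v g (p i) = S.co v g (p 0) ∧
      ∀ k < i, ¬ S.inC (st S.Γ v) g (p k) := by
  obtain ⟨i, h1, h2, h3, h4, h5⟩ := h.rev.last (v := v) (g := g) (j := n - j) (by omega) (by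
    have : n - (n - j) = j := by omega
    simpa only [this] using hm)
  refine ⟨n - i, by omega, h3, ?_, ?_⟩
  · simpa using h4
  · intro k hk
    have := h5 (n - k) (by omega) (by omega)
    have e : n - (n - k) = k := by omega
    simpa only [e] using this

/-! ### Convexity -/

theorem dist_κ (Λ : Set V) (x y : G) : S.A.dist (S.κ Λ x) (S.κ Λ y) ≤ S.A.dist x y := by
  unfold FinGen.dist
  rw [← map_inv, ← map_mul]
  exact S.len_κ Λ _

theorem conv_steps {l : ℕ} {g : ℕ → G} (h : Geo S.A l g) {Λ : Set V}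
    (hm : S.inC Λ (g 0) (g l)) :
    (∀ i ≤ l, S.inC Λ (g 0) (g i)) ∧ ∀ i < l, ∀ w (b : H w), b ≠ 1 → g (i + 1) = g i * S.ι w b →
      w ∈ Λ := by
  -- the projected path
  have hd : ∀ i < l, 1 ≤ S.A.dist (S.κ Λ ((g 0)⁻¹ * g i)) (S.κ Λ ((g 0)⁻¹ * g (i + 1))) := by
    intro i hi
    have e0 : S.A.dist (S.κ Λ ((g 0)⁻¹ * g 0)) (S.κ Λ ((g 0)⁻¹ * g l)) = l := by
      rw [inv_mul_cancel, map_one, S.mem_sp.1 hm, S.A.dist_one_left]
      have := h 0 l (by omega)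
      rw [zero_add] at this
      exact this
    have a1 := dist_κ (S := S) Λ ((g 0)⁻¹ * g 0) ((g 0)⁻¹ * g i)
    have a2 := dist_κ (S := S) Λ ((g 0)⁻¹ * g (i + 1)) ((g 0)⁻¹ * g l)
    rw [S.A.dist_mul_left] at a1 a2
    have b1 := h 0 i (by omega)
    have b2 := h (i + 1) (l - (i + 1)) (by omega)
    rw [zero_add] at b1
    have e : i + 1 + (l - (i + 1)) = l := by omega
    rw [e] at b2
    have t1 := S.A.dist_triangle (S.κ Λ ((g 0)⁻¹ * g 0)) (S.κ Λ ((g 0)⁻¹ * g i))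
      (S.κ Λ ((g 0)⁻¹ * g l))
    have t2 := S.A.dist_triangle (S.κ Λ ((g 0)⁻¹ * g i)) (S.κ Λ ((g 0)⁻¹ * g (i + 1)))
      (S.κ Λ ((g 0)⁻¹ * g l))
    omega
  have hw : ∀ i < l, ∀ w (b : H w), b ≠ 1 → g (i + 1) = g i * S.ι w b → w ∈ Λ := by
    intro i hi w b hb e
    by_contra hw
    have := hd i hi
    rw [e, ← mul_assoc, map_mul (S.κ Λ) ((g 0)⁻¹ * g i), S.κ_not _ _ hw, mul_one,
      S.A.dist_self] at this
    omega
  refine ⟨?_, hw⟩
  intro i
  induction i with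
  | zero => intro _; exact inC.refl _ _
  | succ i ih =>
    intro hi
    obtain ⟨w, b, h1, h2⟩ := S.step_eq (h i 1 hi)
    rw [h1]
    exact (ih (by omega)).step (hw i (by omega) w b (S.ne_one_of_len h2) h1) b

/-- Geodesics through a given point. -/
theorem _root_.Pool.Agent.Y33.Free.exists_geo_through {A : FinGen G} {x y z : G}
    (h : A.dist x z + A.dist z y = A.dist x y) :
    ∃ g : ℕ → G, Geo A (A.dist x y) g ∧ g 0 = x ∧ g (A.dist x z) = z ∧ g (A.dist x y) = y := by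
  obtain ⟨p, p1, p2, p3⟩ := exists_geo A x z
  obtain ⟨q, q1, q2, q3⟩ := exists_geo A z y
  have e : q 0 = p (A.dist x z) := by rw [q2, p3]
  refine ⟨app p (A.dist x z) q, ?_, ?_, ?_, ?_⟩
  · intro a k hk
    rcases le_or_gt (a + k) (A.dist x z) with h1 | h1
    · rw [app_le (by omega), app_le h1]
      exact p1 a k h1
    · rcases le_or_gt a (A.dist x z) with h2 | h2
      · obtain ⟨j, hj⟩ : ∃ j, a + k = A.dist x z + j := ⟨a + k - A.dist x z, by omega⟩
        rw [hj, app_add e, app_le h2]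
        obtain ⟨c, hc⟩ := Nat.exists_eq_add_of_le h2
        have c1 := p1 0 a (by omega)
        have c2 := p1 a c (by omega)
        have c3 := q1 0 j (by omega)
        have c4 := q1 j (A.dist z y - j) (by omega)
        rw [zero_add] at c1 c3
        rw [← hc, p3] at c2
        have e5 : j + (A.dist z y - j) = A.dist z y := by omega
        rw [e5, q3] at c4
        rw [p2] at c1
        rw [q2] at c3
        have t1 := A.dist_triangle x (p a) y
        have t2 := A.dist_triangle (p a) (q j) y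
        have t3 := A.dist_triangle (p a) z (q j)
        omega
      · obtain ⟨j, rfl⟩ := Nat.exists_eq_add_of_le h2.le
        rw [add_assoc, app_add e, app_add e]
        exact q1 j k (by omega)
  · rw [app_le (Nat.zero_le _), p2]
  · rw [app_le le_rfl, p3]
  · rw [← h, app_add e, q3]

theorem conv {Λ : Set V} {c x y z : G} (hx : S.inC Λ c x) (hy : S.inC Λ c y)
    (h : S.A.dist x z + S.A.dist z y = S.A.dist x y) : S.inC Λ c z := by
  obtain ⟨g, g1, g2, g3, g4⟩ := exists_geo_through h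
  have h1 : S.inC Λ (g 0) (g (S.A.dist x y)) := by
    rw [g2, g4]; exact hx.symm.trans hy
  have := (conv_steps g1 h1).1 (S.A.dist x z) (by omega)
  rw [g2, g3] at this
  exact hx.trans this

/-- A geodesic with a step in a wall is separated by the wall. -/
theorem geo_sep {l : ℕ} {g : ℕ → G} (h : Geo S.A l g) {i : ℕ} (hi : i < l) {v : V} {a : H v}
    (ha : a ≠ 1) (hs : g (i + 1) = g i * S.ι v a) {c : G} (hc : S.inC (st S.Γ v) c (g i)) :
    S.co v c (g 0) ≠ S.co v c (g l) := by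
  intro heq
  have hc' : S.inC (st S.Γ v) c (g (i + 1)) := by
    rw [hs]; exact hc.step (S.mem_st_self v) a
  obtain ⟨i0, h1, h2, h3, -⟩ := h.up.first (v := v) (g := c) (j := i) hi.le hc
  obtain ⟨i1, h4, h5, h6, h7, -⟩ := h.up.last (v := v) (g := c) (j := i + 1) hi hc'
  obtain ⟨k, rfl⟩ := Nat.exists_eq_add_of_le (show i0 ≤ i1 by omega)
  have h8 := S.inC_lk h2 h6 (by rw [h3, heq, h7])
  have h9 := (conv_steps (h.sub (a := i0) (l' := k) h5) (Λ := lk S.Γ v) (by simpa using h8)).2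
    (i - i0) (by omega) v a ha (by
      have e1 : i0 + (i - i0 + 1) = i + 1 := by omega
      have e2 : i0 + (i - i0) = i := by omega
      simp only [e1, e2]
      exact hs)
  exact SimpleGraph.irrefl _ h9

/-- If a wall separates two points of a coset, it crosses the coset. -/
theorem coset_cross {Λ : Set V} {c x y : G} (hx : S.inC Λ c x) (hy : S.inC Λ c y) {v : V} {g : G}
    (hne : S.co v g x ≠ S.co v g y) : v ∈ Λ ∧ ∃ k, S.inC Λ c k ∧ S.inC (st S.Γ v) g k := by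
  obtain ⟨p, p1, p2, p3⟩ := exists_geo S.A x y
  obtain ⟨i, hi, h1, a, ha, h2⟩ := p1.up.cross (v := v) (g := g) (by rwa [p2, p3])
  have h3 := conv_steps p1 (Λ := Λ) (by rw [p2, p3]; exact hx.symm.trans hy)
  refine ⟨h3.2 i hi v a (S.ne_one_of_len ha) h2, p i, ?_, h1⟩
  have := h3.1 i hi.le
  rw [p2] at this
  exact hx.trans this

end Sys

end Pool.Agent.Y33.GP
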