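import Pool.Agent.Y33.GP.Prod

/-! # Walls with bounded link part -/

set_option autoImplicit false

namespace Pool.Agent.Y33.GP

open Pool.Agent.H659R3.MorseLim Pool.Agent.Y33.Free

/-- Local recurrence at scale `K`. -/
def LocR {G : Type} [Group G] (A : FinGen G) (M : ℕ → ℕ) (K l : ℕ) (g : ℕ → G) : Prop :=
  ∀ a k, a + k ≤ l → k ≤ K → RecOn A M k (fun i => g (a + i))

/-- Locally recurrent geodesics are recurrent. -/
def LocRec {G : Type} [Group G] (A : FinGen G) : Prop :=
  ∀ M : ℕ → ℕ, ∃ (K : ℕ) (F : ℕ → ℕ), ∀ (l : ℕ) (g : ℕ → G), Geo A l g → LocR A M K l g →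
    RecOn A F l g

theorem LocR.R {G : Type} [Group G] {A : FinGen G} {M : ℕ → ℕ} {K l : ℕ} {g : ℕ → G}
    (h : LocR A M K l g) {a b c : ℕ} (hab : a ≤ b) (hbc : b ≤ c) (hc : c ≤ l) (hK : c ≤ a + K)
    {m : ℕ} (hm : 1 ≤ m) : R A m (M m) (g a) (g b) (g c) := by
  have := h a (c - a) (by omega) (by omega) m hm 0 (b - a) (c - a) (by omega) (by omega) le_rfl
  have e1 : a + (b - a) = b := by omega
  have e2 : a + (c - a) = c := by omega
  simpa only [add_zero, e1, e2] using this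

theorem LocR.mono {G : Type} [Group G] {A : FinGen G} {M : ℕ → ℕ} {K K' l : ℕ} {g : ℕ → G}
    (h : LocR A M K l g) (hK : K' ≤ K) : LocR A M K' l g :=
  fun a k h1 h2 => h a k h1 (h2.trans hK)

theorem LocR.sub {G : Type} [Group G] {A : FinGen G} {M : ℕ → ℕ} {K l l' s : ℕ} {g : ℕ → G}
    (h : LocR A M K l g) (hl : s + l' ≤ l) : LocR A M K l' (fun i => g (s + i)) := by
  intro a k h1 h2
  have := h (s + a) k (by omega) h2
  simpa only [add_assoc] using this

variable {V : Type} {H : V → Type} [∀ v, Group (H v)] {G : Type} [Group G]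

namespace Sys

variable {S : Sys H G}

/-- The link coordinate at a wall. -/
def lc (S : Sys H G) (v : V) (c x : G) : G := S.κ (lk S.Γ v) (c⁻¹ * x)

theorem lc_mem (v : V) (c x : G) : S.lc v c x ∈ S.sp (lk S.Γ v) := ⟨_, rfl⟩

theorem not_mem_lk (v : V) : v ∉ lk S.Γ v := fun h => SimpleGraph.irrefl _ h

theorem wall_rep {v : V} {c x : G} (hx : S.inC (st S.Γ v) c x) :
    c⁻¹ * x = S.ι v (S.co v c x) * S.lc v c x := by
  obtain ⟨a, l, hl, h1⟩ := S.st_decomp hx
  unfold co lc
  rw [h1, S.head_st' hl, map_mul, S.κ_not _ _ (not_mem_lk v), S.mem_sp.1 hl, one_mul]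

theorem adj_lk (v : V) : ∀ u ∈ ({v} : Set V), ∀ w ∈ lk S.Γ v, S.Γ.Adj u w := by
  rintro u rfl w hw
  exact hw

theorem dist_ι (v : V) (a b : H v) : S.A.dist (S.ι v a) (S.ι v b) = (S.B v).dist a b := by
  unfold FinGen.dist
  rw [← map_inv, ← map_mul, S.len_ι]

theorem dist_wall' {v : V} {c x y : G} (hx : S.inC (st S.Γ v) c x) (hy : S.inC (st S.Γ v) c y) :
    S.A.dist x y = (S.B v).dist (S.co v c x) (S.co v c y) + S.A.dist (S.lc v c x) (S.lc v c y) := by
  rw [← S.A.dist_mul_left c⁻¹, wall_rep hx, wall_rep hy, dist_prod (adj_lk v)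
    (S.ι_mem (Set.mem_singleton v) _) (S.ι_mem (Set.mem_singleton v) _) (lc_mem _ _ _)
    (lc_mem _ _ _), dist_ι]

theorem UP.co_lip {n : ℕ} {p : ℕ → G} (h : S.UP n p) (v : V) (c : G) :
    (S.B v).dist (S.co v c (p 0)) (S.co v c (p n)) ≤ n := by
  induction n with
  | zero => simp
  | succ n ih =>
    have h1 := ih fun i hi => h i (by omega)
    have h2 : (S.B v).dist (S.co v c (p n)) (S.co v c (p (n + 1))) ≤ 1 := by
      rcases S.step_le (h n (by omega)) with h3 | ⟨w, b, h3, h4⟩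
      · rw [h3]; simp
      · rw [h3]
        by_cases hw : w = v
        · subst hw
          by_cases hc : S.inC (st S.Γ w) c (p n)
          · rw [S.co_mem hc, FinGen.dist]
            have : (S.co w c (p n))⁻¹ * (S.co w c (p n) * b) = b := by group
            rw [this, h4]
          · rw [S.co_not hc]; simp
        · rw [S.co_ne hw]; simp
    have := (S.B v).dist_triangle (S.co v c (p 0)) (S.co v c (p n)) (S.co v c (p (n + 1)))
    omega

theorem co_lip (v : V) (c x y : G) : (S.B v).dist (S.co v c x) (S.co v c y) ≤ S.A.dist x y := by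
  obtain ⟨g, g1, g2, g3⟩ := exists_geo S.A x y
  have := g1.up.co_lip v c
  rwa [g2, g3] at this

/-- Recurrence near walls with bounded link part: local recurrence in the vertex group. -/
theorem iso_local {v : V} {ρ : ℕ} (hρ : ∀ l ∈ S.sp (lk S.Γ v), S.A.len l ≤ ρ) {c x y z : G}
    (hx : S.inC (st S.Γ v) c x) (hz : S.inC (st S.Γ v) c z) {m D : ℕ} (hm : 1 ≤ m)
    (hR : R S.A (cc m ρ) D x y z) :
    R (S.B v) m (D + ρ) (S.co v c x) (S.co v c y) (S.co v c z) := by
  intro L q hq h0 hL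
  have rx := wall_rep hx
  have rz := wall_rep hz
  have hq' : QG S.A m L (fun i => c * (S.ι v (q i) * S.lc v c x)) := by
    intro a k hk
    rw [S.A.dist_mul_left, dist_prod (adj_lk v)
      (S.ι_mem (Set.mem_singleton v) _) (S.ι_mem (Set.mem_singleton v) _) (lc_mem _ _ _)
      (lc_mem _ _ _), dist_ι, S.A.dist_self, add_zero]
    exact hq a k hk
  obtain ⟨t, ht, h1⟩ := hR.change (e := ρ) hm hq' (by
    rw [h0, ← rx]; simp) (by
    rw [hL]
    calc S.A.dist (c * (S.ι v (S.co v c z) * S.lc v c x)) z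
        = S.A.dist (c * (S.ι v (S.co v c z) * S.lc v c x)) (c * (c⁻¹ * z)) := by
          rw [mul_inv_cancel_left]
      _ = S.A.dist (S.lc v c x) (S.lc v c z) := by
          rw [S.A.dist_mul_left, rz, dist_prod (adj_lk v)
            (S.ι_mem (Set.mem_singleton v) _) (S.ι_mem (Set.mem_singleton v) _) (lc_mem _ _ _)
            (lc_mem _ _ _), S.A.dist_self, zero_add]
      _ ≤ ρ := hρ _ (Subgroup.mul_mem _ (Subgroup.inv_mem _ (lc_mem _ _ _)) (lc_mem _ _ _)))
  refine ⟨t, ht, ?_⟩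
  have h2 := co_lip (S := S) v c (c * (S.ι v (q t) * S.lc v c x)) y
  have h3 : S.co v c (c * (S.ι v (q t) * S.lc v c x)) = q t := by
    unfold co
    rw [inv_mul_cancel_left, S.head_st' (lc_mem _ _ _)]
  rw [h3] at h2
  exact h2.trans h1

/-- The trace of a geodesic on a wall with bounded link part is recurrent. -/
theorem iso_trace {v : V} {ρ : ℕ} (hρ : ∀ l ∈ S.sp (lk S.Γ v), S.A.len l ≤ ρ) {M F : ℕ → ℕ}
    {K : ℕ} (hF : ∀ (l : ℕ) (g : ℕ → H v), Geo (S.B v) l g →
      LocR (S.B v) (fun m => M (cc m ρ) + ρ) K l g → RecOn (S.B v) F l g)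
    {l : ℕ} {g : ℕ → G} (hg : Geo S.A l g) (hM : LocR S.A M (K + ρ) l g) {c : G}
    (hc0 : S.inC (st S.Γ v) c (g 0)) (hcl : S.inC (st S.Γ v) c (g l)) {i : ℕ} (hi : i ≤ l)
    {m : ℕ} (hm : 1 ≤ m) :
    R (S.B v) m (F m) (S.co v c (g 0)) (S.co v c (g i)) (S.co v c (g l)) := by
  have hJ : ∀ j ≤ l, S.inC (st S.Γ v) c (g j) := by
    intro j hj
    exact hc0.trans ((conv_steps hg (hc0.symm.trans hcl)).1 j hj)
  set n : ℕ → ℕ := fun x => (S.B v).dist (S.co v c (g 0)) (S.co v c (g x)) with hn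
  have hdiff : ∀ x y, x ≤ y → y ≤ l → n x + (S.B v).dist (S.co v c (g x)) (S.co v c (g y)) = n y ∧
      y - x ≤ (S.B v).dist (S.co v c (g x)) (S.co v c (g y)) + ρ := by
    intro x y hxy hy
    obtain ⟨k, rfl⟩ := Nat.exists_eq_add_of_le hxy
    have e1 := hg 0 x (by omega)
    have e2 := hg x k hy
    have e3 := hg 0 (x + k) (by omega)
    rw [zero_add] at e1 e3
    rw [dist_wall' (hJ 0 (by omega)) (hJ x (by omega))] at e1
    rw [dist_wall' (hJ x (by omega)) (hJ _ hy)] at e2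
    rw [dist_wall' (hJ 0 (by omega)) (hJ _ hy)] at e3
    have t1 := S.A.dist_triangle (S.lc v c (g 0)) (S.lc v c (g x)) (S.lc v c (g (x + k)))
    have t2 := (S.B v).dist_triangle (S.co v c (g 0)) (S.co v c (g x)) (S.co v c (g (x + k)))
    have t3 : S.A.dist (S.lc v c (g x)) (S.lc v c (g (x + k))) ≤ ρ :=
      hρ _ (Subgroup.mul_mem _ (Subgroup.inv_mem _ (lc_mem _ _ _)) (lc_mem _ _ _))
    simp only [hn]
    omega
  have hn0 : n 0 = 0 := by simp [hn]
  have hex : ∀ k, ∃ t, k ≤ n l → t ≤ l ∧ n t = k := by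
    intro k
    by_cases hk : k ≤ n l
    · rcases Nat.eq_zero_or_pos l with h | h
      · subst h
        exact ⟨0, fun _ => ⟨le_rfl, by omega⟩⟩
      · obtain ⟨s, hs, h1, h2⟩ := exists_step l n k (by omega) hk h
        have h3 := hdiff s (s + 1) (by omega) hs
        have h4 := co_lip (S := S) v c (g s) (g (s + 1))
        rw [hg s 1 hs] at h4
        rcases Nat.eq_or_lt_of_le h2 with h5 | h5
        · exact ⟨s + 1, fun _ => ⟨hs, h5.symm⟩⟩
        · exact ⟨s, fun _ => ⟨hs.le, by omega⟩⟩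
    · exact ⟨0, fun h => absurd h hk⟩
  choose t ht using hex
  have hmono : ∀ a b, a ≤ b → b ≤ n l → t a ≤ t b ∨ a = b := by
    intro a b hab hb
    by_contra hcon
    push Not at hcon
    have := (hdiff (t b) (t a) hcon.1.le (ht a (by omega)).1).1
    rw [(ht a (by omega)).2, (ht b hb).2] at this
    omega
  have hη : Geo (S.B v) (n l) (fun k => S.co v c (g (t k))) := by
    intro a k hk
    simp only
    rcases hmono a (a + k) (by omega) hk with h1 | h1
    · have := (hdiff _ _ h1 (ht _ hk).1).1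
      rw [(ht a (by omega)).2, (ht _ hk).2] at this
      omega
    · have : k = 0 := by omega
      subst this
      simp
  have hloc : LocR (S.B v) (fun m => M (cc m ρ) + ρ) K (n l) (fun k => S.co v c (g (t k))) := by
    intro a k hak hk m hm a1 a2 a3 h12 h23 h3
    simp only
    rcases hmono (a + a1) (a + a2) (by omega) (by omega) with h4 | h4
    · rcases hmono (a + a2) (a + a3) (by omega) (by omega) with h5 | h5
      · refine iso_local hρ (hJ _ (ht _ (by omega)).1) (hJ _ (ht _ (by omega)).1) hm ?_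
        refine hM.R h4 h5 (ht _ (by omega)).1 ?_ (hm.trans (le_cc m ρ))
        have h6 := hdiff _ _ (h4.trans h5) (ht (a + a3) (by omega)).1
        rw [(ht (a + a1) (by omega)).2, (ht (a + a3) (by omega)).2] at h6
        omega
      · rw [h5]
        exact R.right _ _ _ _ _
    · rw [h4]
      exact R.left _ _ _ _ _
  have hrec := hF _ _ hη hloc m hm 0 (n i) (n l) (Nat.zero_le _) (by
    have := (hdiff i l hi le_rfl).1
    omega) le_rfl
  simp only at hrec
  have same : ∀ j ≤ l, S.co v c (g (t (n j))) = S.co v c (g j) := by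
    intro j hj
    have hj' : n j ≤ n l := by
      have := (hdiff j l hj le_rfl).1
      omega
    refine (S.B v).eq_of_dist ?_
    rcases le_total (t (n j)) j with h1 | h1
    · have := (hdiff _ _ h1 hj).1
      rw [(ht _ hj').2] at this
      omega
    · have := (hdiff _ _ h1 (ht _ hj').1).1
      rw [(ht _ hj').2] at this
      rw [(S.B v).dist_comm]
      omega
  have e0 := same 0 (Nat.zero_le _)
  rw [hn0] at e0
  rw [e0, same i hi, same l le_rfl] at hrec
  exact hrec

/-- Excursion length. -/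
def eE (m ρ : ℕ) : ℕ := m * (10 * m + ρ) + m

/-- The constant of the trace of a quasi-geodesic. -/
def eM (m ρ : ℕ) : ℕ := m + m * (2 * (m * eE m ρ + m) + 8 * m + ρ)

/-- Recurrence at a wall with bounded link part. -/
theorem iso_rec {v : V} {ρ : ℕ} (hρ : ∀ l ∈ S.sp (lk S.Γ v), S.A.len l ≤ ρ) {c x y z : G} {m D : ℕ}
    (hy : S.inC (st S.Γ v) c y) (hne : S.co v c x ≠ S.co v c z)
    (hR : R (S.B v) (eM m ρ) D (S.co v c x) (S.co v c y) (S.co v c z)) :
    R S.A m (4 * m + (m * eE m ρ + m) + D + ρ) x y z := by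
  classical
  intro L q hq h0 hL
  set nv : ℕ → Prop := fun t => ∃ y, S.inC (st S.Γ v) c y ∧ S.A.dist (q t) y ≤ 2 * m with hnv
  -- changes of the coordinate
  have cross : ∀ t, t + 1 ≤ L → S.co v c (q t) ≠ S.co v c (q (t + 1)) → nv t ∧ nv (t + 1) := by
    intro t ht hne
    obtain ⟨p, p1, p2, p3⟩ := exists_geo S.A (q t) (q (t + 1))
    have hd := (hq t 1 ht).1
    obtain ⟨i, hi, h1, -⟩ := p1.up.cross (v := v) (g := c) (by rwa [p2, p3])
    have e1 := p1 0 i (by omega)
    rw [zero_add, p2] at e1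
    have e2 := p1 i (S.A.dist (q t) (q (t + 1)) - i) (by omega)
    have e3 : i + (S.A.dist (q t) (q (t + 1)) - i) = S.A.dist (q t) (q (t + 1)) := by omega
    rw [e3, p3] at e2
    exact ⟨⟨p i, h1, by omega⟩, ⟨p i, h1, by rw [S.A.dist_comm]; omega⟩⟩
  have const : ∀ a b, a ≤ b → b ≤ L → (∀ t, a ≤ t → t < b → ¬ (nv t ∧ nv (t + 1))) →
      S.co v c (q a) = S.co v c (q b) := by
    intro a b hab hb h
    obtain ⟨k, rfl⟩ := Nat.exists_eq_add_of_le hab
    clear hab
    induction k with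
    | zero => rfl
    | succ k ih =>
      rw [ih (by omega) (fun t h1 h2 => h t h1 (by omega))]
      by_contra hne
      exact h (a + k) (by omega) (by omega) (cross (a + k) (by omega) hne)
  have close : ∀ t t', nv t → nv t' →
      S.A.dist (q t) (q t') ≤ (S.B v).dist (S.co v c (q t)) (S.co v c (q t')) + 8 * m + ρ := by
    rintro t t' ⟨y1, h1, h2⟩ ⟨y2, h3, h4⟩
    have d1 := dist_wall' h1 h3
    have d2 : S.A.dist (S.lc v c y1) (S.lc v c y2) ≤ ρ :=
      hρ _ (Subgroup.mul_mem _ (Subgroup.inv_mem _ (lc_mem _ _ _)) (lc_mem _ _ _))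
    have d3 := co_lip (S := S) v c (q t) y1
    have d4 := co_lip (S := S) v c (q t') y2
    have d5 := (S.B v).dist_triangle (S.co v c y1) (S.co v c (q t)) (S.co v c y2)
    have d6 := (S.B v).dist_triangle (S.co v c (q t)) (S.co v c (q t')) (S.co v c y2)
    rw [(S.B v).dist_comm (S.co v c y1) (S.co v c (q t))] at d5
    have d7 := S.A.dist_triangle (q t) y1 (q t')
    have d8 := S.A.dist_triangle y1 y2 (q t')
    rw [S.A.dist_comm y2] at d8
    omega
  -- there is a near visit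
  have hex : ∃ t, t ≤ L ∧ nv t := by
    by_contra hcon
    push Not at hcon
    refine hne ?_
    have := const 0 L (Nat.zero_le _) le_rfl (fun t _ h2 h3 => hcon t h2.le h3.1)
    rwa [h0, hL] at this
  obtain ⟨T1, ⟨hT1, hT1n⟩, hT1m⟩ : ∃ T1, (T1 ≤ L ∧ nv T1) ∧ ∀ t < T1, ¬ (t ≤ L ∧ nv t) :=
    ⟨Nat.find hex, Nat.find_spec hex, fun t ht => Nat.find_min hex ht⟩
  obtain ⟨T2, hT12, hT2, hT2n, hT2m⟩ : ∃ T2, T1 ≤ T2 ∧ T2 ≤ L ∧ nv T2 ∧
      ∀ t, T2 < t → t ≤ L → ¬ nv t :=
    ⟨Nat.findGreatest nv L, Nat.le_findGreatest hT1 hT1n, Nat.findGreatest_le L,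
      Nat.findGreatest_spec hT1 hT1n, fun t h1 h2 => Nat.findGreatest_is_greatest h1 h2⟩
  have c1 : S.co v c (q T1) = S.co v c x := by
    rw [← h0]
    exact (const 0 T1 (Nat.zero_le _) hT1 (fun t _ h2 h3 => hT1m t h2 ⟨by omega, h3.1⟩)).symm
  have c2 : S.co v c (q T2) = S.co v c z := by
    rw [← hL]
    exact const T2 L hT2 le_rfl (fun t h1 h2 h3 => hT2m (t + 1) (by omega) (by omega) h3.2)
  -- near visits around a given time
  have around : ∀ t, T1 ≤ t → t ≤ T2 → ∃ u w, T1 ≤ u ∧ u ≤ t ∧ t ≤ w ∧ w ≤ T2 ∧ nv u ∧ nv w ∧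
      t ≤ u + eE m ρ ∧ w ≤ t + eE m ρ := by
    intro t ht1 ht2
    by_cases hnt : nv t
    · exact ⟨t, t, ht1, le_rfl, le_rfl, ht2, hnt, hnt, by omega, by omega⟩
    · obtain ⟨u, hu1, hu2, hu3, hu4⟩ : ∃ u, T1 ≤ u ∧ u ≤ t ∧ nv u ∧ ∀ s, u < s → s ≤ t → ¬ nv s :=
        ⟨Nat.findGreatest nv t, Nat.le_findGreatest ht1 hT1n, Nat.findGreatest_le t,
          Nat.findGreatest_spec ht1 hT1n, fun s h1 h2 => Nat.findGreatest_is_greatest h1 h2⟩
      have hex2 : ∃ w, t ≤ w ∧ nv w := ⟨T2, ht2, hT2n⟩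
      obtain ⟨w, ⟨hw1, hw2⟩, hw3, hw4⟩ : ∃ w, (t ≤ w ∧ nv w) ∧ (∀ s < w, ¬ (t ≤ s ∧ nv s)) ∧
          w ≤ T2 :=
        ⟨Nat.find hex2, Nat.find_spec hex2, fun s hs => Nat.find_min hex2 hs,
          Nat.find_min' hex2 ⟨ht2, hT2n⟩⟩
      have hu5 : u < t := by
        rcases Nat.eq_or_lt_of_le hu2 with h | h
        · rw [h] at hu3; exact absurd hu3 hnt
        · exact h
      have hno : ∀ s, u < s → s < w → ¬ nv s := by
        intro s h1 h2
        rcases le_total s t with h3 | h3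
        · exact hu4 s h1 h3
        · exact fun h4 => hw3 s h2 ⟨h3, h4⟩
      have e1 := const (u + 1) w (by omega) (by omega) (fun s h1 h2 h3 => hno s (by omega) h2 h3.1)
      have e2 := close u w hu3 hw2
      have e3 := co_lip (S := S) v c (q u) (q (u + 1))
      have e4 := (hq u 1 (by omega)).1
      rw [← e1] at e2
      obtain ⟨k, rfl⟩ := Nat.exists_eq_add_of_le (show u ≤ w by omega)
      have e5 := (hq u k (by omega)).2
      have e6 : m * S.A.dist (q u) (q (u + k)) ≤ m * (10 * m + ρ) :=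
        Nat.mul_le_mul_left m (by omega)
      refine ⟨u, u + k, hu1, hu2, hw1, hw4, hu3, hw2, ?_, ?_⟩ <;> unfold eE <;> omega
  -- the trace is a quasi-geodesic
  have hqg : QG (S.B v) (eM m ρ) (T2 - T1) (fun t => S.co v c (q (T1 + t))) := by
    intro a k hk
    have hmm : m ≤ eM m ρ := Nat.le_add_right _ _
    constructor
    · have e1 := co_lip (S := S) v c (q (T1 + a)) (q (T1 + (a + k)))
      have e2 := (hq (T1 + a) k (by omega)).1
      rw [add_assoc] at e2
      have e3 : m * k ≤ eM m ρ * k := Nat.mul_le_mul_right k hmm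
      simp only
      omega
    · obtain ⟨u, -, u1, u2, -, -, u3, -, u4, -⟩ := around (T1 + a) (by omega) (by omega)
      obtain ⟨-, w, -, -, w1, w2, -, w3, -, w4⟩ := around (T1 + (a + k)) (by omega) (by omega)
      have e1 := close u w u3 w3
      have e2 := co_lip (S := S) v c (q u) (q (T1 + a))
      have e3 := co_lip (S := S) v c (q (T1 + (a + k))) (q w)
      obtain ⟨j, hj⟩ := Nat.exists_eq_add_of_le u2
      obtain ⟨j', hj'⟩ := Nat.exists_eq_add_of_le w1
      have e4 := (hq u j (by omega)).1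
      rw [← hj] at e4
      have e5 := (hq (T1 + (a + k)) j' (by omega)).1
      rw [← hj'] at e5
      have e6 : m * j ≤ m * eE m ρ := Nat.mul_le_mul_left m (by omega)
      have e7 : m * j' ≤ m * eE m ρ := Nat.mul_le_mul_left m (by omega)
      obtain ⟨i, hi⟩ := Nat.exists_eq_add_of_le (show u ≤ w by omega)
      have e8 := (hq u i (by omega)).2
      rw [← hi] at e8
      have t1 := (S.B v).dist_triangle (S.co v c (q u)) (S.co v c (q (T1 + a))) (S.co v c (q w))
      have t2 := (S.B v).dist_triangle (S.co v c (q (T1 + a))) (S.co v c (q (T1 + (a + k))))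
        (S.co v c (q w))
      set d := (S.B v).dist (S.co v c (q (T1 + a))) (S.co v c (q (T1 + (a + k)))) with hd
      have e9 : S.A.dist (q u) (q w) ≤ d + (2 * (m * eE m ρ + m) + 8 * m + ρ) := by omega
      have e10 : m * S.A.dist (q u) (q w) ≤ m * (d + (2 * (m * eE m ρ + m) + 8 * m + ρ)) :=
        Nat.mul_le_mul_left m e9
      have e11 : m * (d + (2 * (m * eE m ρ + m) + 8 * m + ρ)) =
          m * d + m * (2 * (m * eE m ρ + m) + 8 * m + ρ) := by ring
      have e12 : m * d ≤ eM m ρ * d := Nat.mul_le_mul_right d hmm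
      have e13 : eM m ρ = m + m * (2 * (m * eE m ρ + m) + 8 * m + ρ) := rfl
      omega
  obtain ⟨t, ht, h1⟩ := hR _ _ hqg (by simpa using c1) (by
    have : T1 + (T2 - T1) = T2 := by omega
    simp only [this]
    exact c2)
  obtain ⟨u, -, -, u2, -, -, ⟨y1, u3, u4⟩, -, u5, -⟩ := around (T1 + t) (by omega) (by omega)
  refine ⟨u, by omega, ?_⟩
  have d1 := dist_wall' u3 hy
  have d2 : S.A.dist (S.lc v c y1) (S.lc v c y) ≤ ρ :=
    hρ _ (Subgroup.mul_mem _ (Subgroup.inv_mem _ (lc_mem _ _ _)) (lc_mem _ _ _))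
  have d3 := co_lip (S := S) v c (q u) y1
  have d4 := co_lip (S := S) v c (q u) (q (T1 + t))
  obtain ⟨j, hj⟩ := Nat.exists_eq_add_of_le u2
  have d5 := (hq u j (by omega)).1
  rw [← hj] at d5
  have d6 : m * j ≤ m * eE m ρ := Nat.mul_le_mul_left m (by omega)
  have t1 := (S.B v).dist_triangle (S.co v c y1) (S.co v c (q u)) (S.co v c y)
  have t2 := (S.B v).dist_triangle (S.co v c (q u)) (S.co v c (q (T1 + t))) (S.co v c y)
  rw [(S.B v).dist_comm (S.co v c y1) (S.co v c (q u))] at t1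
  have t3 := S.A.dist_triangle (q u) y1 y
  omega

end Sys

end Pool.Agent.Y33.GP
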