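import Pool.Agent.Y33.GP.Div

/-! # Graph products: locally recurrent geodesics are recurrent -/

set_option autoImplicit false

namespace Pool.Agent.Y33.GP

open Pool.Agent.H659R3.MorseLim Pool.Agent.Y33.Free

variable {V : Type} {H : V → Type} [∀ v, Group (H v)] {G : Type} [Group G]

namespace Sys

variable {S : Sys H G}

theorem unb_of_infinite {v : V} (h : ¬ Finite (H v)) : S.Unb {v} := by
  intro n
  by_contra hcon
  push Not at hcon
  refine h ?_
  have hfin := ball_finite (S.B v) n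
  have : (Set.univ : Set (H v)).Finite := by
    refine hfin.subset fun a _ => ?_
    have := hcon (S.ι v a) (S.ι_mem (Set.mem_singleton v) a)
    rw [S.len_ι] at this
    exact this.le
  exact Set.finite_univ_iff.1 this

/-- The constant `D₂`. -/
def isoD (c₀ : ℕ) (F : ℕ → ℕ) (m : ℕ) : ℕ := 4 * m + (m * eE m c₀ + m) + F (eM m c₀) + c₀

theorem iso_step {v : V} {c₀ : ℕ} (hρ : ∀ l ∈ S.sp (lk S.Γ v), S.A.len l ≤ c₀) {M F : ℕ → ℕ}
    {K : ℕ} (hF : ∀ (l : ℕ) (g : ℕ → H v), Geo (S.B v) l g →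
      LocR (S.B v) (fun m => M (cc m c₀) + c₀) K l g → RecOn (S.B v) F l g)
    {l : ℕ} {g : ℕ → G} (hg : Geo S.A l g) (hM : LocR S.A M (K + c₀) l g) {i : ℕ} (hi : i < l)
    {s : H v} (hs : (S.B v).len s = 1) (hst : g (i + 1) = g i * S.ι v s) {m : ℕ} (hm : 1 ≤ m) :
    R S.A m (isoD c₀ F m) (g 0) (g i) (g l) := by
  have hc : S.inC (st S.Γ v) (g i) (g i) := inC.refl _ _
  have hc' : S.inC (st S.Γ v) (g i) (g (i + 1)) := by
    rw [hst]; exact hc.step (S.mem_st_self v) s
  obtain ⟨i0, h1, h2, h3, -⟩ := hg.up.first (v := v) (g := g i) (j := i) hi.le hc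
  obtain ⟨i1, h4, h5, h6, h7, -⟩ := hg.up.last (v := v) (g := g i) (j := i + 1) hi hc'
  have hne := geo_sep hg hi (S.ne_one_of_len hs) hst hc
  have e : i0 + (i1 - i0) = i1 := by omega
  have e' : i0 + (i - i0) = i := by omega
  have hm' : 1 ≤ eM m c₀ := hm.trans (Nat.le_add_right _ _)
  have htr := iso_trace hρ hF (hg.sub (a := i0) (l' := i1 - i0) (by omega))
    (hM.sub (s := i0) (l' := i1 - i0) (by omega)) (c := g i) (by simpa using h2)
    (by simp only [e]; exact h6) (i := i - i0) (by omega) hm'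
  simp only [add_zero, e, e'] at htr
  rw [h3, h7] at htr
  exact iso_rec hρ hc hne htr

/-- Graph products: locally recurrent geodesics are recurrent. -/
theorem locRec_sys [Finite V] (hB : ∀ v, ¬ S.Good v → LocRec (S.B v)) : LocRec S.A := by
  classical
  intro M
  have hfV := Fintype.ofFinite V
  have hfS := Fintype.ofFinite (Set V)
  have hbnd : ∀ Λ : Set V, ∃ n, ¬ S.Unb Λ → ∀ p ∈ S.sp Λ, S.A.len p ≤ n := by
    intro Λ
    by_cases h : S.Unb Λ
    · exact ⟨0, fun h' => absurd h h'⟩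
    · unfold Unb at h
      push Not at h
      obtain ⟨n, hn⟩ := h
      exact ⟨n, fun _ p hp => (hn p hp).le⟩
  choose bnd hbnd using hbnd
  set c₀ := (Finset.univ : Finset (Set V)).sup bnd with hc₀d
  have hc₀ : ∀ Λ : Set V, ¬ S.Unb Λ → ∀ p ∈ S.sp Λ, S.A.len p ≤ c₀ := fun Λ h p hp =>
    (hbnd Λ h p hp).trans (Finset.le_sup (f := bnd) (Finset.mem_univ Λ))
  have hB' : ∀ v, ∃ (K : ℕ) (F : ℕ → ℕ), ¬ S.Good v → ∀ (l : ℕ) (g : ℕ → H v), Geo (S.B v) l g →
      LocR (S.B v) (fun m => M (cc m c₀) + c₀) K l g → RecOn (S.B v) F l g := by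
    intro v
    by_cases h : S.Good v
    · exact ⟨0, fun _ => 0, fun h' => absurd h h'⟩
    · obtain ⟨K, F, hF⟩ := hB v h (fun m => M (cc m c₀) + c₀)
      exact ⟨K, F, fun _ => hF⟩
  choose Kv Fv hv using hB'
  set D₂ : ℕ → ℕ := fun m => (Finset.univ : Finset V).sup (fun v => isoD c₀ (Fv v) m) with hD₂
  set B₁ := 4 * M 6 + 4 + (Finset.univ : Finset V).sup (fun v => Nat.card (H v)) with hB₁
  set Km := (Finset.univ : Finset V).sup Kv with hKm
  set K := 4 * M 6 + 4 + kW V M B₁ + Km + c₀ with hK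
  refine ⟨K, gF V M D₂ B₁ c₀, ?_⟩
  intro l g hg hM
  have main : ∀ (l : ℕ) (g : ℕ → G), Geo S.A l g → LocR S.A M K l g → ∀ m, 1 ≤ m → ∀ b ≤ l,
      R S.A m (gF V M D₂ B₁ c₀ m) (g 0) (g b) (g l) := by
    intro l g hg hM m hm b hb
    refine core hg hM (by omega) (B₁ := B₁) (by omega) ?_ (by omega) hc₀ ?_ hm hb
    · intro v _
      have := Finset.le_sup (f := fun v => Nat.card (H v)) (Finset.mem_univ v)
      omega
    · intro v hng i hi s hs hst m hm
      have hng1 : ¬ Finite (H v) := fun h => hng (Or.inl h)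
      have hng2 : ¬ S.Unb (lk S.Γ v) := fun h => hng (Or.inr ⟨unb_of_infinite hng1, h⟩)
      have hKv : Kv v ≤ Km := Finset.le_sup (f := Kv) (Finset.mem_univ v)
      refine (iso_step (hc₀ _ hng2) (hv v hng) hg (hM.mono (by omega)) hi hs hst hm).mono le_rfl ?_
      exact Finset.le_sup (f := fun v => isoD c₀ (Fv v) m) (Finset.mem_univ v)
  intro m hm a b c hab hbc hc
  have := main (c - a) (fun i => g (a + i)) (hg.sub (by omega)) (hM.sub (by omega)) m hm (b - a)
    (by omega)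
  have e1 : a + (b - a) = b := by omega
  have e2 : a + (c - a) = c := by omega
  simpa only [add_zero, e1, e2] using this

/-- Bad vertices are infinite, with finite neighbours. -/
theorem not_good {v : V} (h : ¬ S.Good v) :
    Infinite (H v) ∧ ∀ w, S.Γ.Adj v w → Finite (H w) := by
  have h1 : ¬ Finite (H v) := fun hf => h (Or.inl hf)
  refine ⟨not_finite_iff_infinite.1 h1, fun w hw => ?_⟩
  by_contra hfin
  refine h (Or.inr ⟨unb_of_infinite h1, fun n => ?_⟩)
  obtain ⟨p, hp, hn⟩ := unb_of_infinite (S := S) hfin n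
  exact ⟨p, S.sp_mono (by rintro u rfl; exact hw) hp, hn⟩

end Sys

end Pool.Agent.Y33.GP
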