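import Pool.Agent.Y33.GP.Iso

/-! # Pairs of walls crossed by a recurrent geodesic -/

set_option autoImplicit false

namespace Pool.Agent.Y33.GP

open Pool.Agent.H659R3.MorseLim Pool.Agent.Y33.Free

variable {V : Type} {H : V → Type} [∀ v, Group (H v)] {G : Type} [Group G]

namespace Sys

variable {S : Sys H G}

theorem mem_sp_all {Λ : Set V} {h : G} (hh : ∀ w ∈ Λ, h ∈ S.sp (lk S.Γ w)) :
    h ∈ S.sp {u | ∀ w ∈ Λ, S.Γ.Adj w u} := by
  obtain ⟨p, p1, p2, p3⟩ := exists_geo S.A 1 h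
  have key : ∀ i ≤ S.A.dist 1 h, p i ∈ S.sp {u | ∀ w ∈ Λ, S.Γ.Adj w u} := by
    intro i
    induction i with
    | zero => intro _; rw [p2]; exact Subgroup.one_mem _
    | succ i ih =>
      intro hi
      obtain ⟨u, b, h1, h2⟩ := S.step_eq (p1 i 1 hi)
      rw [h1]
      refine Subgroup.mul_mem _ (ih (by omega)) (S.ι_mem ?_ b)
      intro w hw
      exact (conv_steps p1 (Λ := lk S.Γ w) (by
        rw [p2, p3]; unfold inC; simpa using hh w hw)).2 i (by omega) u b
        (S.ne_one_of_len h2) h1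
  have := key _ le_rfl
  rwa [p3] at this

/-- Nearest points in a recurrent strip. -/
theorem strip_bound {v : V} {x x' : G} (hne : ¬ S.inC (st S.Γ v) x x')
    (h1 : S.Gate (st S.Γ v) x' x) (h2 : S.Gate (st S.Γ v) x x') {D : ℕ}
    (hR : ∀ (g : ℕ → G), Geo S.A (S.A.dist x x') g → g 0 = x → g (S.A.dist x x') = x' →
      ∀ i ≤ S.A.dist x x', R S.A 6 D x (g i) x')
    (hlen : 2 * D + 1 < S.A.dist x x') {c₀ : ℕ}
    (hc₀ : ∀ Λ : Set V, ¬ S.Unb Λ → ∀ p ∈ S.sp Λ, S.A.len p ≤ c₀) {z y' : G}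
    (hz : S.inC (st S.Γ v) x z) (hy' : S.inC (st S.Γ v) x' y') (h3 : S.Gate (st S.Γ v) z y') :
    S.A.dist x' y' ≤ c₀ := by
  have hs := strip hne h1 h2 hz hy' h3
  set Λ₁ : Set V := {w | x⁻¹ * x' ∈ S.sp (lk S.Γ w)} with hΛ₁
  by_cases hu : S.Unb Λ₁
  · exfalso
    set Λ₂ : Set V := {u | ∀ w ∈ Λ₁, S.Γ.Adj w u} with hΛ₂
    have hadj : ∀ u ∈ Λ₁, ∀ w ∈ Λ₂, S.Γ.Adj u w := fun u hu w hw => hw u hu
    have hmem : x⁻¹ * x' ∈ S.sp Λ₂ := mem_sp_all fun w hw => hw
    obtain ⟨p, p1, p2, p3⟩ := exists_geo S.A x x'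
    have hp : ∀ i ≤ S.A.dist x x', x⁻¹ * p i ∈ S.sp Λ₂ := by
      intro i hi
      have := (conv_steps p1 (Λ := Λ₂) (by rw [p2, p3]; exact hmem)).1 i hi
      rw [p2] at this
      exact this
    have hd := S.disj_of_adj hadj
    have := product_short hadj hu (p1.mul x⁻¹) (by simp [p2]) (by
      intro i hi
      rw [S.κ_of_disj hd (hp i hi), one_mul]
      exact S.mem_sp.1 (hp i hi)) (by
      rw [S.κ_of_disj hd (hp _ le_rfl)]; simp) (D := D) (by
      intro i hi
      have := (hR p p1 p2 p3 i hi).mul x⁻¹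
      rw [inv_mul_cancel] at this
      rw [p3]
      exact this)
    rw [S.mem_sp.1 (hp _ le_rfl), p3] at this
    change S.A.dist x x' ≤ _ at this
    omega
  · exact hc₀ Λ₁ hu _ hs

theorem const_on {v : V} {g c x y : G} (h : ¬ S.inC (st S.Γ v) g c) (hx : S.inC (st S.Γ v) c x)
    (hy : S.inC (st S.Γ v) c y) : S.co v g x = S.co v g y := by
  by_contra hne
  obtain ⟨-, k, h1, h2⟩ := S.coset_cross hx hy hne
  exact h (h2.trans h1.symm)

theorem Gate.between {Λ : Set V} {p x x' : G} (h : S.Gate Λ p x)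
    (hd : S.A.dist x x' + S.A.dist x' p = S.A.dist x p) : S.Gate Λ x' x := by
  intro w hw k hk
  by_contra hne
  obtain ⟨g, g1, g2, g3, g4⟩ := exists_geo_through hd
  have hup : S.UP (S.A.dist x x') g := fun i hi => g1.up i (by omega)
  obtain ⟨i, hi, h1, a, h2, h3⟩ := hup.cross (v := w) (g := k) (by
    rw [g2, g3]; exact fun hh => hne hh.symm)
  have := geo_sep g1 (i := i) (by omega) (S.ne_one_of_len h2) h3 h1
  rw [g2, g4] at this
  exact this (h w hw k hk).symm

/-- The constant `D` of a pair. -/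
def pD (M : ℕ → ℕ) : ℕ := gU M (cc 6 (gU M 1)) + gU M 1

/-- Many distinct parallel walls crossed by a recurrent geodesic: distances between the extreme
walls. -/
theorem pair_exists {M : ℕ → ℕ} {l : ℕ} {g : ℕ → G} (hg : Geo S.A l g) {a b : ℕ} (hab : a ≤ b)
    (hb : b ≤ l) (hM : RecOn S.A M (b - a) (fun i => g (a + i))) {v : V} {T : Finset ℕ}
    (hT : ∀ t ∈ T, a ≤ t ∧ t < b ∧ ∃ s : H v, (S.B v).len s = 1 ∧ g (t + 1) = g t * S.ι v s)
    (hdis : ∀ t ∈ T, ∀ t' ∈ T, S.inC (st S.Γ v) (g t) (g t') → t = t')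
    (hcard : 2 * pD M + 4 ≤ T.card) {c₀ : ℕ}
    (hc₀ : ∀ Λ : Set V, ¬ S.Unb Λ → ∀ p ∈ S.sp Λ, S.A.len p ≤ c₀) :
    ∃ i₀ ∈ T, ∃ i₁ ∈ T, i₀ < i₁ ∧ ∃ j, a ≤ j ∧ j ≤ b ∧ ∀ z w, S.inC (st S.Γ v) (g i₀) z →
      S.inC (st S.Γ v) (g i₁) w → S.A.dist z (g j) ≤ S.A.dist z w + c₀ + gU M 1 := by
  classical
  have hne : T.Nonempty := Finset.card_pos.1 (by omega)
  set i₀ := T.min' hne with hi₀
  set i₁ := T.max' hne with hi₁
  have m0 : i₀ ∈ T := T.min'_mem hne
  have m1 : i₁ ∈ T := T.max'_mem hne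
  have hlt : i₀ < i₁ := by
    have := T.min'_lt_max'_of_card (by omega)
    exact this
  obtain ⟨b1, b2, s0, s0', s0''⟩ := hT i₀ m0
  obtain ⟨b3, b4, s1, s1', s1''⟩ := hT i₁ m1
  obtain ⟨x, hx, hxg⟩ := exists_gate S (st S.Γ v) (g i₁) (g i₀)
  obtain ⟨x', hx', hxg'⟩ := exists_gate S (st S.Γ v) x (g i₁)
  have hJJ : ¬ S.inC (st S.Γ v) (g i₀) (g i₁) := fun h => by
    have := hdis _ m0 _ m1 h
    omega
  have hxx : ¬ S.inC (st S.Γ v) x x' := fun h => hJJ (hx.trans (h.trans hx'.symm))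
  -- additivity
  have a1 := hxg.add hx.symm
  have a2 := hxg'.add hx'.symm
  have hgx : S.Gate (st S.Γ v) x' x := by
    refine hxg.between ?_
    rw [a2]
  have e1 : S.A.dist (g i₀) x + S.A.dist x (g i₁) = S.A.dist (g i₀) (g i₁) := by
    rw [S.A.dist_comm (g i₀) (g i₁), a1, S.A.dist_comm (g i₁) x, S.A.dist_comm x (g i₀)]
    omega
  have e2 : S.A.dist (g i₀) x' + S.A.dist x' (g i₁) = S.A.dist (g i₀) (g i₁) := by
    have t1 := S.A.dist_triangle (g i₀) x x'
    have t2 := S.A.dist_triangle (g i₀) x' (g i₁)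
    omega
  -- recurrence of `g` between the two walls
  have hMs : RecOn S.A M (i₁ - i₀) (fun i => g (i₀ + i)) := by
    have := hM.sub (s := i₀ - a) (l' := i₁ - i₀) (by omega)
    refine this.congr ?_
    intro i _
    congr 1
    omega
  have hgs : Geo S.A (i₁ - i₀) (fun i => g (i₀ + i)) := hg.sub (by omega)
  -- the points `x, x'` are close to `g`
  have near : ∀ y, S.A.dist (g i₀) y + S.A.dist y (g i₁) = S.A.dist (g i₀) (g i₁) →
      ∃ j ≤ i₁ - i₀, S.A.dist y (g (i₀ + j)) ≤ gU M 1 := by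
    intro y hy
    obtain ⟨p, p1, p2, p3, p4⟩ := exists_geo_through hy
    obtain ⟨j, j1, j2, j3⟩ := hMs.close hgs (Nat.zero_le _) le_rfl (m := 1) le_rfl
      (p1.qg le_rfl) (by simpa using p2) (by
        have : i₀ + (i₁ - i₀) = i₁ := by omega
        simp only [this]
        exact p4) (t := S.A.dist (g i₀) y) (by omega)
    rw [p3] at j3
    exact ⟨j, j2, j3⟩
  obtain ⟨j, hj, hj'⟩ := near x e1
  obtain ⟨j', hj1, hj1'⟩ := near x' e2
  -- recurrence of geodesics from `x` to `x'`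
  have hU : U S.A (gU M) (g (i₀ + j)) (g (i₀ + j')) := by
    rcases le_total j j' with h | h
    · exact hMs.toU hgs h hj1
    · exact (hMs.toU hgs h hj).symm
  have hR : ∀ (p : ℕ → G), Geo S.A (S.A.dist x x') p → p 0 = x → p (S.A.dist x x') = x' →
      ∀ i ≤ S.A.dist x x', R S.A 6 (pD M) x (p i) x' := by
    intro p p1 p2 p3 i hi L q hq h0 hL
    obtain ⟨t, -, ht, h4⟩ := hU.change (m := 6) (e := gU M 1) (by omega) (p1.qg (by omega)) hq
      (Nat.zero_le _) le_rfl (Nat.zero_le _) (le_refl L) (by rw [p2]; exact hj')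
      (by rw [p3]; exact hj1') (by rw [h0]; exact hj') (by rw [hL]; exact hj1') (i := i)
      (by omega) (by omega)
    refine ⟨t, by simpa using ht, ?_⟩
    rw [S.A.dist_comm]
    exact h4
  -- the walls between
  have hlen : 2 * pD M + 1 < S.A.dist x x' := by
    have h4 : (T.erase i₀).erase i₁ ⊆ T :=
      (Finset.erase_subset _ _).trans (Finset.erase_subset _ _)
    have h5 : T.card - 2 ≤ ((T.erase i₀).erase i₁).card := by
      rw [Finset.card_erase_of_mem (by
        rw [Finset.mem_erase]; exact ⟨by omega, m1⟩), Finset.card_erase_of_mem m0]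
      omega
    obtain ⟨p, p1, p2, p3⟩ := exists_geo S.A x x'
    have h6 : ∀ t ∈ (T.erase i₀).erase i₁, ∃ τ < S.A.dist x x',
        S.inC (st S.Γ v) (g t) (p τ) := by
      intro t ht
      have htT := h4 ht
      rw [Finset.mem_erase, Finset.mem_erase] at ht
      obtain ⟨c1, c2, s, s', s''⟩ := hT t htT
      have d0 : i₀ < t := lt_of_le_of_ne (T.min'_le t htT) (Ne.symm ht.2.1)
      have d1 : t < i₁ := lt_of_le_of_ne (T.le_max' t htT) ht.1
      have n0 : ¬ S.inC (st S.Γ v) (g t) (g i₀) := fun h => by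
        have := hdis _ htT _ m0 h; omega
      have n1 : ¬ S.inC (st S.Γ v) (g t) (g i₁) := fun h => by
        have := hdis _ htT _ m1 h; omega
      have c3 := const_on n0 (inC.refl _ _) hx
      have c4 := const_on n1 (inC.refl _ _) hx'
      have c5 : S.co v (g t) (g i₀) ≠ S.co v (g t) (g i₁) := by
        have := geo_sep hgs (i := t - i₀) (v := v) (a := s) (c := g t) (by omega)
          (S.ne_one_of_len s') (by
            have f1 : i₀ + (t - i₀ + 1) = t + 1 := by omega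
            have f2 : i₀ + (t - i₀) = t := by omega
            simp only [f1, f2]
            exact s'') (by
            have f2 : i₀ + (t - i₀) = t := by omega
            simp only [f2]
            exact inC.refl _ _)
        have f3 : i₀ + (i₁ - i₀) = i₁ := by omega
        simpa only [add_zero, f3] using this
      rw [c3, c4] at c5
      obtain ⟨τ, hτ, h7, -⟩ := p1.up.cross (v := v) (g := g t) (by rwa [p2, p3])
      exact ⟨τ, hτ, h7⟩
    choose! τ hτ1 hτ2 using h6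
    have h7 : ((T.erase i₀).erase i₁).card ≤ (Finset.range (S.A.dist x x')).card := by
      refine Finset.card_le_card_of_injOn τ ?_ ?_
      · intro t ht
        simpa using hτ1 t ht
      · intro t ht t' ht' heq
        refine hdis t (h4 ht) t' (h4 ht') ?_
        have h8 := hτ2 t ht
        have h9 := hτ2 t' ht'
        rw [heq] at h8
        exact h8.trans h9.symm
    rw [Finset.card_range] at h7
    omega
  refine ⟨i₀, m0, i₁, m1, hlt, i₀ + j', by omega, by omega, ?_⟩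
  intro z w hz hw
  obtain ⟨y', hy', hyg⟩ := exists_gate S (st S.Γ v) z (g i₁)
  have f1 := strip_bound hxx hgx hxg' hR hlen hc₀ (hx.symm.trans hz) (hx'.symm.trans hy') hyg
  have f2 := hyg.add (hy'.symm.trans hw)
  have t1 := S.A.dist_triangle z y' (g (i₀ + j'))
  have t2 := S.A.dist_triangle y' x' (g (i₀ + j'))
  rw [S.A.dist_comm y' x'] at t2
  omega

/-- The steps of a recurrent geodesic inside one wall: unbounded case. -/
theorem wall_steps_unb {M : ℕ → ℕ} {l K : ℕ} {g : ℕ → G} (hg : Geo S.A l g)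
    (hM : LocR S.A M K l g) (hK : 4 * M 6 + 4 ≤ K) {v : V} (h1 : S.Unb {v})
    (h2 : S.Unb (lk S.Γ v)) {a b : ℕ} (hab : a ≤ b) (hb : b ≤ l)
    (hc : S.inC (st S.Γ v) (g a) (g b)) : b ≤ a + (4 * M 6 + 3) := by
  by_contra hcon
  push Not at hcon
  set D := M 6 with hD
  set k := 4 * D + 4 with hk
  have hgs : Geo S.A (b - a) (fun i => g (a + i)) := hg.sub (by omega)
  have hin : ∀ i ≤ k, S.inC (st S.Γ v) (g a) (g (a + i)) := by
    intro i hi
    have := (conv_steps hgs (Λ := st S.Γ v) (by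
      have : a + (b - a) = b := by omega
      simpa only [this, add_zero] using hc)).1 i (by omega)
    simpa only [add_zero] using this
  have hgk : Geo S.A k (fun i => (g a)⁻¹ * g (a + i)) :=
    (hg.sub (a := a) (l' := k) (by omega)).mul _
  have hR : ∀ i ≤ k, R S.A 6 D 1 ((g a)⁻¹ * g (a + i)) ((g a)⁻¹ * g (a + k)) := by
    intro i hi
    have := (hM.R (a := a) (b := a + i) (c := a + k) (by omega) (by omega) (by omega) (by omega)
      (m := 6) (by omega)).mul (g a)⁻¹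
    rwa [inv_mul_cancel] at this
  have hz : ∀ i ≤ k, S.κ {v} ((g a)⁻¹ * g (a + i)) * S.κ (lk S.Γ v) ((g a)⁻¹ * g (a + i)) =
      (g a)⁻¹ * g (a + i) := by
    intro i hi
    obtain ⟨s, t, ht, h⟩ := S.st_decomp (hin i hi)
    rw [h, map_mul, map_mul, S.κ_mem _ _ (Set.mem_singleton v), S.κ_not _ _ (not_mem_lk v),
      S.mem_sp.1 ht, S.κ_of_disj (S.disj_of_adj (adj_lk v)) ht, mul_one, one_mul]
  have hs : ∀ Λ x, S.κ Λ x ∈ S.sp Λ := fun Λ x => ⟨x, rfl⟩
  have hsum : S.A.len (S.κ {v} ((g a)⁻¹ * g (a + k))) +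
      S.A.len (S.κ (lk S.Γ v) ((g a)⁻¹ * g (a + k))) = k := by
    rw [← S.len_mul (S.disj_of_adj (adj_lk v)) (hs _ _) (hs _ _), hz k le_rfl]
    exact hg a k (by omega)
  rcases le_total (S.A.len (S.κ {v} ((g a)⁻¹ * g (a + k))))
    (S.A.len (S.κ (lk S.Γ v) ((g a)⁻¹ * g (a + k)))) with h | h
  · have := product_short (adj_lk v) h1 hgk (by simp) hz h hR
    omega
  · have := product_short (Λ₁ := lk S.Γ v) (Λ₂ := {v}) (by
      rintro u hu w rfl
      exact SimpleGraph.Adj.symm hu) h2 hgk (by simp) (by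
      intro i hi
      rw [S.comm_sp (Λ := lk S.Γ v) (Λ' := {v}) (by
        rintro u hu w rfl
        exact SimpleGraph.Adj.symm hu) (hs _ _) (hs _ _)]
      exact hz i hi) h hR
    omega

end Sys

end Pool.Agent.Y33.GP
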