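import Pool.Agent.Y33.GP.Gate

/-! # Recurrent geodesics do not follow product regions -/

set_option autoImplicit false

namespace Pool.Agent.Y33.GP

open Pool.Agent.H659R3.MorseLim Pool.Agent.Y33.Free

variable {V : Type} {H : V → Type} [∀ v, Group (H v)] {G : Type} [Group G]

namespace Sys

variable {S : Sys H G}

/-- The special subgroup of `Λ` has elements of arbitrary length. -/
def Unb (S : Sys H G) (Λ : Set V) : Prop := ∀ n, ∃ p ∈ S.sp Λ, n ≤ S.A.len p

theorem Unb.exact {Λ : Set V} (h : S.Unb Λ) (n : ℕ) : ∃ p ∈ S.sp Λ, S.A.len p = n := by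
  obtain ⟨p, hp, hn⟩ := h n
  obtain ⟨g, g1, g2, g3⟩ := exists_geo S.A 1 p
  rw [S.A.dist_one_left] at g1 g3
  have h1 := (conv_steps g1 (Λ := Λ) (by
    rw [g2, g3]; unfold inC; simpa using hp)).1 n hn
  refine ⟨g n, ?_, ?_⟩
  · rw [g2] at h1
    unfold inC at h1
    simpa using h1
  · have := g1 0 n (by omega)
    rwa [zero_add, g2, S.A.dist_one_left] at this

theorem dist_prod {Λ₁ Λ₂ : Set V} (hadj : ∀ u ∈ Λ₁, ∀ w ∈ Λ₂, S.Γ.Adj u w) {p p' q q' : G}
    (hp : p ∈ S.sp Λ₁) (hp' : p' ∈ S.sp Λ₁) (hq : q ∈ S.sp Λ₂) (hq' : q' ∈ S.sp Λ₂) :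
    S.A.dist (p * q) (p' * q') = S.A.dist p p' + S.A.dist q q' := by
  have e1 : p⁻¹ * p' ∈ S.sp Λ₁ := Subgroup.mul_mem _ (Subgroup.inv_mem _ hp) hp'
  have e2 : q⁻¹ * q' ∈ S.sp Λ₂ := Subgroup.mul_mem _ (Subgroup.inv_mem _ hq) hq'
  have e3 : (p * q)⁻¹ * (p' * q') = p⁻¹ * p' * (q⁻¹ * q') := by
    have h1 := S.comm_sp hadj e1 (Subgroup.inv_mem _ hq)
    calc (p * q)⁻¹ * (p' * q') = q⁻¹ * (p⁻¹ * p') * q' := by group
      _ = p⁻¹ * p' * q⁻¹ * q' := by rw [h1]
      _ = _ := by group
  unfold FinGen.dist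
  rw [e3]
  exact S.len_mul (S.disj_of_adj hadj) e1 e2

/-- The detour in a product region. -/
theorem detour {Λ₁ Λ₂ : Set V} (hadj : ∀ u ∈ Λ₁, ∀ w ∈ Λ₂, S.Γ.Adj u w) (hunb : S.Unb Λ₁)
    {p q pz qz : G} (hp : p ∈ S.sp Λ₁) (hq : q ∈ S.sp Λ₂) (hpz : pz ∈ S.sp Λ₁)
    (hqz : qz ∈ S.sp Λ₂) (h1 : S.A.len p ≤ S.A.len q) (h2 : S.A.len pz ≤ S.A.len q) {D : ℕ}
    (hR : R S.A 6 D 1 (pz * qz) (p * q)) :
    S.A.len qz ≤ D ∨ S.A.dist qz q ≤ D ∨ S.A.len q ≤ D := by
  obtain ⟨lam, hlam, hlen⟩ := hunb.exact (2 * S.A.len q)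
  obtain ⟨e1, a1, a2, a3⟩ := exists_geo S.A 1 lam
  obtain ⟨e2, b1, b2, b3⟩ := exists_geo S.A 1 q
  obtain ⟨e3, c1, c2, c3⟩ := exists_geo S.A lam p
  rw [S.A.dist_one_left, hlen] at a1 a3
  rw [S.A.dist_one_left] at b1 b3
  set c := S.A.len q with hc
  set n3 := S.A.dist lam p with hn3
  set N := 2 * c with hN
  have m1 : ∀ i ≤ N, e1 i ∈ S.sp Λ₁ := by
    intro i hi
    have := (conv_steps a1 (Λ := Λ₁) (by rw [a2, a3]; unfold inC; simpa using hlam)).1 i hi
    rw [a2] at this
    unfold inC at this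
    simpa using this
  have m2 : ∀ i ≤ c, e2 i ∈ S.sp Λ₂ := by
    intro i hi
    have := (conv_steps b1 (Λ := Λ₂) (by rw [b2, b3]; unfold inC; simpa using hq)).1 i hi
    rw [b2] at this
    unfold inC at this
    simpa using this
  have m3 : ∀ i ≤ n3, e3 i ∈ S.sp Λ₁ := by
    intro i hi
    have := (conv_steps c1 (Λ := Λ₁) (by
      rw [c2, c3]; exact Subgroup.mul_mem _ (Subgroup.inv_mem _ hlam) hp)).1 i hi
    rw [c2] at this
    have := Subgroup.mul_mem _ hlam this
    simpa using this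
  have hn3' : n3 ≤ 3 * c := by
    have := S.A.dist_triangle lam 1 p
    rw [S.A.dist_comm lam 1, S.A.dist_one_left, S.A.dist_one_left] at this
    omega
  set path : ℕ → G := fun i => if i ≤ N then e1 i * 1 else if i ≤ N + c then lam * e2 (i - N)
    else e3 (i - N - c) * q with hpath
  have hA : ∀ i, i ≤ N → path i = e1 i * 1 := fun i hi => by simp only [hpath, if_pos hi]
  have hB : ∀ i, N ≤ i → i ≤ N + c → path i = lam * e2 (i - N) := by
    intro i h3 h4
    simp only [hpath]
    split_ifs with h5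
    · have : i = N := by omega
      rw [this, a3, Nat.sub_self, b2]
    · rfl
  have hC : ∀ i, N + c ≤ i → path i = e3 (i - N - c) * q := by
    intro i h3
    simp only [hpath]
    split_ifs with h5 h6
    · have e : i = N := by omega
      have e' : c = 0 := by omega
      rw [e, e', a3, Nat.sub_self, Nat.sub_self, c2]
      rw [e'] at hc
      rw [S.A.eq_one_of_len hc.symm]
    · have e : i = N + c := by omega
      rw [e]
      have e4 : N + c - N = c := by omega
      rw [e4, b3, Nat.sub_self, c2]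
    · rfl
  have hqg : QG S.A 6 (N + c + n3) path := by
    intro a k hk
    rcases le_or_gt (a + k) N with k1 | k1
    · rw [hA _ k1, hA a (by omega), dist_prod hadj (m1 _ (by omega)) (m1 _ k1)
        (Subgroup.one_mem _) (Subgroup.one_mem _), S.A.dist_self, a1 a k k1]
      omega
    · rcases le_or_gt (a + k) (N + c) with k2 | k2
      · rw [hB (a + k) k1.le k2]
        rcases le_or_gt a N with k3 | k3
        · rw [hA a k3, dist_prod hadj (m1 _ k3) hlam (Subgroup.one_mem _) (m2 _ (by omega))]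
          obtain ⟨j, hj⟩ := Nat.exists_eq_add_of_le k3
          have x1 := a1 a j (by omega)
          rw [← hj, a3] at x1
          have x2 := b1 0 (a + k - N) (by omega)
          rw [zero_add, b2] at x2
          rw [x1, x2]
          omega
        · rw [hB a k3.le (by omega), dist_prod hadj hlam hlam (m2 _ (by omega))
            (m2 _ (by omega)), S.A.dist_self]
          have x2 := b1 (a - N) k (by omega)
          have e : a - N + k = a + k - N := by omega
          rw [e] at x2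
          rw [x2]
          omega
      · rw [hC (a + k) k2.le]
        rcases le_or_gt a N with k3 | k3
        · rw [hA a k3, dist_prod hadj (m1 _ k3) (m3 _ (by omega)) (Subgroup.one_mem _) hq,
            S.A.dist_one_left, ← hc]
          obtain ⟨j, hj⟩ := Nat.exists_eq_add_of_le k3
          have x1 := a1 a j (by omega)
          rw [← hj, a3] at x1
          have x2 := c1 0 (a + k - N - c) (by omega)
          rw [zero_add, c2] at x2
          have := S.A.dist_triangle (e1 a) lam (e3 (a + k - N - c))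
          omega
        · rcases le_or_gt a (N + c) with k4 | k4
          · rw [hB a k3.le k4, dist_prod hadj hlam (m3 _ (by omega)) (m2 _ (by omega)) hq]
            have x2 := c1 0 (a + k - N - c) (by omega)
            rw [zero_add, c2] at x2
            have x3 := b1 (a - N) (N + c - a) (by omega)
            have e : a - N + (N + c - a) = c := by omega
            rw [e, b3] at x3
            rw [x2, x3]
            omega
          · rw [hC a k4.le, dist_prod hadj (m3 _ (by omega)) (m3 _ (by omega)) hq hq,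
              S.A.dist_self]
            have x2 := c1 (a - N - c) k (by omega)
            have e : a - N - c + k = a + k - N - c := by omega
            rw [e] at x2
            rw [x2]
            omega
  obtain ⟨t, ht, hd⟩ := hR _ path hqg (by rw [hA 0 (by omega), a2, mul_one]) (by
    rw [hC _ (by omega)]
    have : N + c + n3 - N - c = n3 := by omega
    rw [this, c3])
  rcases le_or_gt t N with k1 | k1
  · left
    rw [hA t k1, dist_prod hadj (m1 _ k1) hpz (Subgroup.one_mem _) hqz, S.A.dist_one_left] at hd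
    omega
  · right
    rcases le_or_gt t (N + c) with k2 | k2
    · right
      rw [hB t k1.le k2, dist_prod hadj hlam hpz (m2 _ (by omega)) hqz] at hd
      have := S.A.dist_triangle 1 pz lam
      rw [S.A.dist_one_left, S.A.dist_one_left, S.A.dist_comm pz lam, hlen] at this
      omega
    · left
      rw [hC t k2.le, dist_prod hadj (m3 _ (by omega)) hpz hq hqz, S.A.dist_comm q qz] at hd
      omega

/-- Recurrent geodesics in product regions are short. -/
theorem product_short {Λ₁ Λ₂ : Set V} (hadj : ∀ u ∈ Λ₁, ∀ w ∈ Λ₂, S.Γ.Adj u w)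
    (hunb : S.Unb Λ₁) {l : ℕ} {g : ℕ → G} (hg : Geo S.A l g) (h0 : g 0 = 1)
    (hz : ∀ i ≤ l, S.κ Λ₁ (g i) * S.κ Λ₂ (g i) = g i)
    (hle : S.A.len (S.κ Λ₁ (g l)) ≤ S.A.len (S.κ Λ₂ (g l))) {D : ℕ}
    (hR : ∀ i ≤ l, R S.A 6 D 1 (g i) (g l)) : S.A.len (S.κ Λ₂ (g l)) ≤ 2 * D + 1 := by
  by_contra hcon
  push Not at hcon
  have hs : ∀ Λ x, S.κ Λ x ∈ S.sp Λ := fun Λ x => ⟨x, rfl⟩
  obtain ⟨i, hi, x1, x2⟩ := exists_step l (fun i => S.A.len (S.κ Λ₂ (g i))) (D + 1)
    (by simp [h0]) (by omega) (by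
      rcases Nat.eq_zero_or_pos l with h | h
      · subst h
        rw [h0] at hcon
        simp at hcon
      · exact h)
  have st1 : S.A.len (S.κ Λ₂ (g (i + 1))) ≤ S.A.len (S.κ Λ₂ (g i)) + 1 := by
    have y1 := dist_κ (S := S) Λ₂ (g i) (g (i + 1))
    rw [hg i 1 hi] at y1
    have y2 := S.A.dist_triangle 1 (S.κ Λ₂ (g i)) (S.κ Λ₂ (g (i + 1)))
    rw [S.A.dist_one_left, S.A.dist_one_left] at y2
    omega
  obtain ⟨j, hj, hj1⟩ : ∃ j ≤ l, S.A.len (S.κ Λ₂ (g j)) = D + 1 := by
    rcases Nat.eq_or_lt_of_le x2 with h | h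
    · exact ⟨i + 1, hi, h.symm⟩
    · exact ⟨i, hi.le, by omega⟩
  -- lengths of the coordinates
  have l1 := hg 0 j (by omega)
  have l2 := hg j (l - j) (by omega)
  have l3 := hg 0 l (by omega)
  have e : j + (l - j) = l := by omega
  rw [e] at l2
  rw [zero_add] at l1 l3
  rw [h0] at l1 l3
  have h1 : (1 : G) = 1 * 1 := by simp
  rw [h1, ← hz j hj, dist_prod hadj (Subgroup.one_mem _) (hs _ _) (Subgroup.one_mem _) (hs _ _),
    S.A.dist_one_left, S.A.dist_one_left] at l1
  rw [h1, ← hz l le_rfl, dist_prod hadj (Subgroup.one_mem _) (hs _ _) (Subgroup.one_mem _)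
    (hs _ _), S.A.dist_one_left, S.A.dist_one_left] at l3
  rw [← hz j hj, ← hz l le_rfl, dist_prod hadj (hs _ _) (hs _ _) (hs _ _)
    (hs _ _)] at l2
  have t1 := S.A.dist_triangle 1 (S.κ Λ₁ (g j)) (S.κ Λ₁ (g l))
  have t2 := S.A.dist_triangle 1 (S.κ Λ₂ (g j)) (S.κ Λ₂ (g l))
  rw [S.A.dist_one_left, S.A.dist_one_left] at t1 t2
  have := hR j hj
  rw [← hz j hj, ← hz l le_rfl] at this
  have := detour hadj hunb (hs _ _) (hs _ _) (hs _ _) (hs _ _) hle (by omega) this
  omega

end Sys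

end Pool.Agent.Y33.GP
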