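import Pool.Agent.H659R3.MorseLim.Word
import Pool.Agent.Y33.GP.Basic

/-! # Heads in graph products, the data used in the sequel -/

set_option autoImplicit false

namespace Pool.Agent.Y33.GP

open Monoid Pool.Agent.H659R3.MorseLim

section HeadDef

variable {V : Type} (Γ : SimpleGraph V) (H : V → Type) [∀ v, Group (H v)] (v : V)

/-- The link of a vertex. -/
def lk : Set V := {w | Γ.Adj v w}

/-- The star of a vertex. -/
def st : Set V := {w | w = v ∨ Γ.Adj v w}

/-- The subgroup generated by the link. -/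
noncomputable def Lk : Subgroup (GProd Γ H) := (kap Γ H (lk Γ v)).range

theorem kap_kap (Λ : Set V) (x : GProd Γ H) : kap Γ H Λ (kap Γ H Λ x) = kap Γ H Λ x := by
  have : (kap Γ H Λ).comp (kap Γ H Λ) = kap Γ H Λ := by
    refine hom_ext' Γ H fun w a => ?_
    rw [MonoidHom.comp_apply]
    by_cases h : w ∈ Λ
    · rw [kap_mem Γ H h, kap_mem Γ H h]
    · rw [kap_not Γ H h, map_one]
  exact DFunLike.congr_fun this x

theorem inj_mem_Lk {w : V} (h : Γ.Adj v w) (b : H w) : inj Γ H w b ∈ Lk Γ H v :=
  ⟨inj Γ H w b, kap_mem Γ H (Λ := lk Γ v) h b⟩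

theorem Lk_comm {l : GProd Γ H} (hl : l ∈ Lk Γ H v) (a : H v) :
    l * inj Γ H v a = inj Γ H v a * l := by
  obtain ⟨x, rfl⟩ := hl
  refine ind_left Γ H (P := fun x => kap Γ H (lk Γ v) x * inj Γ H v a =
    inj Γ H v a * kap Γ H (lk Γ v) x) x (by rw [map_one, one_mul, mul_one]) ?_
  intro w b x hx
  rw [map_mul]
  by_cases h : w ∈ lk Γ v
  · rw [kap_mem Γ H h, mul_assoc, hx, ← mul_assoc, ← mul_assoc]
    rw [inj_comm Γ H (SimpleGraph.Adj.symm h)]
  · rw [kap_not Γ H h, one_mul, hx]

/-- The free product of copies of `H v`. -/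
abbrev NN : Type := CoprodI (fun _ : GProd Γ H ⧸ Lk Γ H v => H v)

/-- The base coset. -/
noncomputable def base : GProd Γ H ⧸ Lk Γ H v := QuotientGroup.mk 1

/-- The action. -/
noncomputable def act : GProd Γ H →* MulAut (NN Γ H v) := permAct

/-- The semidirect product. -/
abbrev SD : Type := NN Γ H v ⋊[act Γ H v] GProd Γ H

open Classical in
/-- The homomorphism `H w → H v` which is the identity for `w = v` and trivial otherwise. -/
noncomputable def del (w : V) : H w →* H v :=
  (Pi.evalMonoidHom H v).comp (MonoidHom.mulSingle H w)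

theorem del_same (a : H v) : del H v v a = a := by
  unfold del; simp

theorem smul_base {l : GProd Γ H} (hl : l ∈ Lk Γ H v) : l • base Γ H v = base Γ H v := by
  unfold base
  change (QuotientGroup.mk (l * 1) : GProd Γ H ⧸ Lk Γ H v) = _
  rw [mul_one, QuotientGroup.eq]
  simpa using hl

theorem mem_of_smul_base {l : GProd Γ H} (hl : l • base Γ H v = base Γ H v) :
    l ∈ Lk Γ H v := by
  unfold base at hl
  change (QuotientGroup.mk (l * 1) : GProd Γ H ⧸ Lk Γ H v) = _ at hl
  rw [mul_one, QuotientGroup.eq] at hl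
  simpa using hl

/-- The images of the vertex groups in the semidirect product. -/
noncomputable def phiv (w : V) : H w →* SD Γ H v :=
  open Classical in
  if w = v then SemidirectProduct.inl.comp ((ofc (base Γ H v)).comp (del H v w))
    else SemidirectProduct.inr.comp (inj Γ H w)

theorem phiv_same (a : H v) : phiv Γ H v v a = SemidirectProduct.inl (ofc (base Γ H v) a) := by
  unfold phiv
  rw [if_pos rfl]
  simp only [MonoidHom.comp_apply, del_same]

theorem phiv_ne {w : V} (h : w ≠ v) (a : H w) :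
    phiv Γ H v w a = SemidirectProduct.inr (inj Γ H w a) := by
  unfold phiv
  rw [if_neg h]
  rfl

theorem phiv_comm_aux {w : V} (h : Γ.Adj v w) (a : H v) (b : H w) :
    phiv Γ H v v a * phiv Γ H v w b = phiv Γ H v w b * phiv Γ H v v a := by
  rw [phiv_same, phiv_ne Γ H v h.ne.symm]
  refine SemidirectProduct.ext ?_ ?_
  · simp only [SemidirectProduct.mul_left, SemidirectProduct.left_inl,
      SemidirectProduct.right_inl, map_one, SemidirectProduct.left_inr,
      SemidirectProduct.right_inr, mul_one, one_mul]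
    unfold act
    rw [permAct_ofc, smul_base Γ H v (inj_mem_Lk Γ H v h b)]
  · simp

theorem phiv_comm (u w : V) (h : Γ.Adj u w) (a : H u) (b : H w) :
    phiv Γ H v u a * phiv Γ H v w b = phiv Γ H v w b * phiv Γ H v u a := by
  by_cases hu : u = v
  · subst hu
    exact phiv_comm_aux Γ H u h a b
  · by_cases hw : w = v
    · subst hw
      exact (phiv_comm_aux Γ H w h.symm b a).symm
    · rw [phiv_ne Γ H v hu, phiv_ne Γ H v hw, ← map_mul, ← map_mul, inj_comm Γ H h]

/-- The homomorphism to the semidirect product. -/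
noncomputable def Phi : GProd Γ H →* SD Γ H v := lift Γ H (phiv Γ H v) (phiv_comm Γ H v)

theorem Phi_same (a : H v) :
    Phi Γ H v (inj Γ H v a) = SemidirectProduct.inl (ofc (base Γ H v) a) := by
  unfold Phi
  rw [lift_inj, phiv_same]

theorem Phi_ne {w : V} (h : w ≠ v) (a : H w) :
    Phi Γ H v (inj Γ H w a) = SemidirectProduct.inr (inj Γ H w a) := by
  unfold Phi
  rw [lift_inj, phiv_ne Γ H v h]

/-- The homomorphism back, on the free product. -/
noncomputable def back : NN Γ H v →* GProd Γ H :=
  CoprodI.lift (fun i => (MulAut.conj (Quotient.out i : GProd Γ H)).toMonoidHom.comp (inj Γ H v))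

theorem back_ofc (g : GProd Γ H) (m : H v) :
    back Γ H v (ofc (QuotientGroup.mk g : GProd Γ H ⧸ Lk Γ H v) m) =
      g * inj Γ H v m * g⁻¹ := by
  have h1 : back Γ H v (ofc (QuotientGroup.mk g : GProd Γ H ⧸ Lk Γ H v) m) =
      (Quotient.out (QuotientGroup.mk g : GProd Γ H ⧸ Lk Γ H v)) * inj Γ H v m *
      (Quotient.out (QuotientGroup.mk g : GProd Γ H ⧸ Lk Γ H v))⁻¹ := CoprodI.lift_of _ _
  rw [h1]
  have h2 : (QuotientGroup.mk (Quotient.out (QuotientGroup.mk g : GProd Γ H ⧸ Lk Γ H v)) :
      GProd Γ H ⧸ Lk Γ H v) = QuotientGroup.mk g := Quotient.out_eq' _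
  rw [QuotientGroup.eq] at h2
  set r := (Quotient.out (QuotientGroup.mk g : GProd Γ H ⧸ Lk Γ H v)) with hr
  have h3 := Lk_comm Γ H v h2 m
  calc r * inj Γ H v m * r⁻¹ = r * (inj Γ H v m * (r⁻¹ * g)) * g⁻¹ := by group
    _ = r * (r⁻¹ * g * inj Γ H v m) * g⁻¹ := by rw [h3]
    _ = _ := by group

/-- The homomorphism back. -/
noncomputable def Psi : SD Γ H v →* GProd Γ H :=
  SemidirectProduct.lift (back Γ H v) (MonoidHom.id _) (by
    intro g
    refine CoprodI.ext_hom _ _ fun i => ?_
    ext m
    obtain ⟨r, rfl⟩ := QuotientGroup.mk_surjective i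
    change back Γ H v (act Γ H v g (ofc _ m)) = g * back Γ H v (ofc _ m) * g⁻¹
    unfold act
    rw [permAct_ofc, back_ofc]
    change back Γ H v (ofc (QuotientGroup.mk (g * r)) m) = _
    rw [back_ofc]
    group)

theorem Psi_Phi (x : GProd Γ H) : Psi Γ H v (Phi Γ H v x) = x := by
  have : (Psi Γ H v).comp (Phi Γ H v) = MonoidHom.id _ := by
    refine hom_ext' Γ H fun w a => ?_
    rw [MonoidHom.comp_apply]
    by_cases h : w = v
    · subst h
      rw [Phi_same]
      unfold Psi
      rw [SemidirectProduct.lift_inl]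
      unfold base
      rw [back_ofc]
      simp
    · rw [Phi_ne Γ H v h]
      unfold Psi
      rw [SemidirectProduct.lift_inr]
  exact DFunLike.congr_fun this x

/-- The head of `x` at the vertex `v`. -/
noncomputable def headv (x : GProd Γ H) : H v :=
  hd (M := fun _ => H v) (base Γ H v) (Phi Γ H v x).left

theorem headv_one : headv Γ H v 1 = 1 := by
  unfold headv
  rw [map_one]
  exact hd_one _

theorem headv_same (a : H v) (x : GProd Γ H) :
    headv Γ H v (inj Γ H v a * x) = a * headv Γ H v x := by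
  unfold headv
  rw [map_mul, Phi_same]
  simp only [SemidirectProduct.mul_left, SemidirectProduct.left_inl,
      SemidirectProduct.right_inl, map_one, MulAut.one_apply]
  exact hd_of_mul (M := fun _ => H v) a _

theorem headv_adj {w : V} (h : Γ.Adj v w) (b : H w) (x : GProd Γ H) :
    headv Γ H v (inj Γ H w b * x) = headv Γ H v x := by
  unfold headv
  rw [map_mul, Phi_ne Γ H v h.ne.symm]
  simp only [SemidirectProduct.mul_left, SemidirectProduct.left_inr,
      SemidirectProduct.right_inr, one_mul]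
  have := hd_act (M := H v) (inj Γ H w b) (Phi Γ H v x).left (base Γ H v)
  rw [smul_base Γ H v (inj_mem_Lk Γ H v h b)] at this
  exact this

theorem headv_ne {w : V} (h : w ≠ v) (x : GProd Γ H) (b : H w) :
    headv Γ H v (x * inj Γ H w b) = headv Γ H v x := by
  unfold headv
  rw [map_mul, Phi_ne Γ H v h]
  simp

theorem kap_st {x : GProd Γ H} {c : H v} (h1 : (Phi Γ H v x).left = ofc (base Γ H v) c)
    (h2 : (Phi Γ H v x).right • base Γ H v = base Γ H v) : kap Γ H (st Γ v) x = x := by
  have h3 := mem_of_smul_base Γ H v h2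
  have h4 : x = inj Γ H v c * (Phi Γ H v x).right := by
    conv_lhs => rw [← Psi_Phi Γ H v x]
    have : Phi Γ H v x = SemidirectProduct.inl (Phi Γ H v x).left *
        SemidirectProduct.inr (Phi Γ H v x).right := by
      simp
    rw [this, map_mul, h1]
    unfold Psi
    rw [SemidirectProduct.lift_inl, SemidirectProduct.lift_inr]
    unfold base
    rw [back_ofc]
    simp
  obtain ⟨y, hy⟩ := h3
  rw [← hy] at h4
  rw [h4, map_mul, kap_mem Γ H (Λ := st Γ v) (Or.inl rfl)]
  congr 1
  have : (kap Γ H (st Γ v)).comp (kap Γ H (lk Γ v)) = kap Γ H (lk Γ v) := by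
    refine hom_ext' Γ H fun w a => ?_
    rw [MonoidHom.comp_apply]
    by_cases h : w ∈ lk Γ v
    · rw [kap_mem Γ H h, kap_mem Γ H (Λ := st Γ v) (Or.inr h)]
    · rw [kap_not Γ H h, map_one]
  exact DFunLike.congr_fun this y

theorem headv_not {x : GProd Γ H} (h : kap Γ H (st Γ v) x ≠ x) (b : H v) :
    headv Γ H v (x * inj Γ H v b) = headv Γ H v x := by
  unfold headv
  rw [map_mul, Phi_same]
  simp only [SemidirectProduct.mul_left, SemidirectProduct.left_inl]
  unfold act
  rw [permAct_ofc]
  refine hd_mul_of (M := fun _ => H v) _ _ ?_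
  by_contra hcon
  push Not at hcon
  obtain ⟨h1, c, hc⟩ := hcon
  exact h (kap_st Γ H v hc h1.symm)

end HeadDef

/-- A graph product of finitely generated groups, with all the data used in the sequel. -/
structure Sys {V : Type} (H : V → Type) [∀ v, Group (H v)] (G : Type) [Group G] where
  /-- the graph -/
  Γ : SimpleGraph V
  /-- the generating sets of the vertex groups -/
  B : ∀ v, FinGen (H v)
  /-- the generating set -/
  A : FinGen G
  /-- the vertex groups -/
  ι : ∀ v, H v →* G
  /-- the retractions -/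
  κ : Set V → (G →* G)
  /-- the projections to the vertex groups -/
  π : ∀ v, G →* H v
  /-- the heads -/
  head : ∀ v, G → H v
  A_S : A.S = ⋃ v, ι v '' (B v).S
  comm : ∀ u v, Γ.Adj u v → ∀ a b, ι u a * ι v b = ι v b * ι u a
  κ_mem : ∀ (Λ : Set V) (v : V), v ∈ Λ → ∀ a, κ Λ (ι v a) = ι v a
  κ_not : ∀ (Λ : Set V) (v : V), v ∉ Λ → ∀ a, κ Λ (ι v a) = 1
  π_same : ∀ v a, π v (ι v a) = a
  π_ne : ∀ v w, w ≠ v → ∀ a, π w (ι v a) = 1
  head_one : ∀ v, head v 1 = 1
  head_same : ∀ v a x, head v (ι v a * x) = a * head v x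
  head_adj : ∀ v w, Γ.Adj v w → ∀ b x, head v (ι w b * x) = head v x
  head_ne : ∀ v w, w ≠ v → ∀ x b, head v (x * ι w b) = head v x
  head_not : ∀ v x, κ (st Γ v) x ≠ x → ∀ b, head v (x * ι v b) = head v x

section Construct

variable {V : Type} [Finite V] (Γ : SimpleGraph V) (H : V → Type) [∀ v, Group (H v)]

/-- The generating set of the graph product. -/
noncomputable def genA (B : ∀ v, FinGen (H v)) : FinGen (GProd Γ H) where
  S := ⋃ v, inj Γ H v '' (B v).S
  finite := Set.finite_iUnion fun v => (B v).finite.image _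
  gen := by
    rw [eq_top_iff]
    rintro x -
    refine ind_left Γ H (P := fun x => x ∈ Subgroup.closure (⋃ v, inj Γ H v '' (B v).S)) x
      (Subgroup.one_mem _) ?_
    intro v a x hx
    refine Subgroup.mul_mem _ ?_ hx
    have h1 : a ∈ Subgroup.closure (B v).S := by rw [(B v).gen]; trivial
    have h2 : inj Γ H v a ∈ (Subgroup.closure (B v).S).map (inj Γ H v) := ⟨a, h1, rfl⟩
    rw [MonoidHom.map_closure] at h2
    exact Subgroup.closure_mono (Set.subset_iUnion (fun v => inj Γ H v '' (B v).S) v) h2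

/-- The data for a graph product. -/
noncomputable def sysOf (B : ∀ v, FinGen (H v)) : Sys H (GProd Γ H) where
  Γ := Γ
  B := B
  A := genA Γ H B
  ι := inj Γ H
  κ := kap Γ H
  π := fun v => (Pi.evalMonoidHom H v).comp (pall Γ H)
  head := headv Γ H
  A_S := rfl
  comm := fun _ _ h a b => inj_comm Γ H h a b
  κ_mem := fun _ _ h a => kap_mem Γ H h a
  κ_not := fun _ _ h a => kap_not Γ H h a
  π_same := fun v a => pall_same Γ H v a
  π_ne := fun _ _ h a => pall_ne Γ H h a
  head_one := headv_one Γ H
  head_same := fun v a x => headv_same Γ H v a x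
  head_adj := fun v _ h b x => headv_adj Γ H v h b x
  head_ne := fun v _ h x b => headv_ne Γ H v h x b
  head_not := fun v _ h b => headv_not Γ H v h b

end Construct

end Pool.Agent.Y33.GP
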