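import Pool.Agent.Y33.GP.Pairs
import Pool.Agent.Y33.Free.NoFix

/-! # Windows of a recurrent geodesic contain many parallel walls -/

set_option autoImplicit false

namespace Pool.Agent.Y33.GP

open Pool.Agent.H659R3.MorseLim Pool.Agent.Y33.Free

variable {V : Type} {H : V → Type} [∀ v, Group (H v)] {G : Type} [Group G]

namespace Sys

variable {S : Sys H G}

/-- The steps inside one wall: finite vertex group. -/
theorem wall_steps_fin {l : ℕ} {g : ℕ → G} (hg : Geo S.A l g) {v : V} [Finite (H v)]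
    {T : Finset ℕ} (hT : ∀ t ∈ T, t < l ∧ ∃ s : H v, (S.B v).len s = 1 ∧
      g (t + 1) = g t * S.ι v s) {c : G} (hc : ∀ t ∈ T, S.inC (st S.Γ v) c (g t)) :
    T.card ≤ Nat.card (H v) := by
  classical
  have := Fintype.ofFinite (H v)
  rw [Nat.card_eq_fintype_card, ← Finset.card_univ]
  refine Finset.card_le_card_of_injOn (fun t => S.co v c (g t)) (fun _ _ => Finset.mem_univ _) ?_
  have key : ∀ t ∈ T, ∀ t' ∈ T, t < t' → S.co v c (g t) ≠ S.co v c (g t') := by
    intro t ht t' ht' hlt
    obtain ⟨h1, s, h2, h3⟩ := hT t ht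
    obtain ⟨h4, -⟩ := hT t' ht'
    have := geo_sep (hg.sub (a := t) (l' := t' - t) (by omega)) (i := 0) (v := v) (a := s) (c := c)
      (by omega) (S.ne_one_of_len h2) (by simpa using h3) (by simpa using hc t ht)
    have e : t + (t' - t) = t' := by omega
    simpa only [add_zero, e] using this
  intro t ht t' ht' heq
  rcases lt_trichotomy t t' with h | h | h
  · exact absurd heq (key t ht t' ht' h)
  · exact h
  · exact absurd heq.symm (key t' ht' t ht h)

/-- The vertices whose walls are crossed only for a bounded time. -/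
def Good (S : Sys H G) (v : V) : Prop := Finite (H v) ∨ (S.Unb {v} ∧ S.Unb (lk S.Γ v))

/-- In a window with good steps only, some vertex has many distinct walls. -/
theorem window [Finite V] {M : ℕ → ℕ} {l K : ℕ} {g : ℕ → G} (hg : Geo S.A l g)
    (hM : LocR S.A M K l g) (hK : 4 * M 6 + 4 ≤ K) {B₁ : ℕ} (hB : 4 * M 6 + 4 ≤ B₁)
    (hB' : ∀ v, Finite (H v) → Nat.card (H v) ≤ B₁) {N a K' : ℕ} (hK1 : 1 ≤ K')
    (hK' : Nat.card V * (B₁ * N) ≤ K') (ha : a + K' ≤ l)
    (hgood : ∀ i, a ≤ i → i < a + K' → ∀ v (s : H v), (S.B v).len s = 1 →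
      g (i + 1) = g i * S.ι v s → S.Good v) :
    ∃ v, ∃ T : Finset ℕ, N ≤ T.card ∧
      (∀ t ∈ T, a ≤ t ∧ t < a + K' ∧ ∃ s : H v, (S.B v).len s = 1 ∧ g (t + 1) = g t * S.ι v s) ∧
      ∀ t ∈ T, ∀ t' ∈ T, S.inC (st S.Γ v) (g t) (g t') → t = t' := by
  classical
  have hfV := Fintype.ofFinite V
  obtain ⟨v₀, -⟩ := S.step_eq (hg a 1 (by omega))
  have hstep : ∀ i, ∃ v, i < l → ∃ s : H v, (S.B v).len s = 1 ∧ g (i + 1) = g i * S.ι v s := by
    intro i
    by_cases hi : i < l
    · obtain ⟨v, s, h1, h2⟩ := S.step_eq (hg i 1 hi)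
      exact ⟨v, fun _ => ⟨s, h2, h1⟩⟩
    · exact ⟨v₀, fun h => absurd h hi⟩
  choose ty hty using hstep
  obtain ⟨v, -, hv⟩ := Finset.exists_le_card_fiber_of_mul_le_card_of_maps_to
    (s := Finset.Ico a (a + K')) (t := (Finset.univ : Finset V)) (f := ty) (n := B₁ * N)
    (fun _ _ => Finset.mem_univ _) ⟨v₀, Finset.mem_univ _⟩ (by
      rw [Finset.card_univ, ← Nat.card_eq_fintype_card, Nat.card_Ico]
      omega)
  set F := (Finset.Ico a (a + K')).filter (fun x => ty x = v) with hF
  have hFm : ∀ t ∈ F, a ≤ t ∧ t < a + K' ∧ ∃ s : H v, (S.B v).len s = 1 ∧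
      g (t + 1) = g t * S.ι v s := by
    intro t ht
    rw [hF, Finset.mem_filter, Finset.mem_Ico] at ht
    refine ⟨ht.1.1, ht.1.2, ?_⟩
    have := hty t (by omega)
    rw [ht.2] at this
    exact this
  have hFne : F.Nonempty ∨ N = 0 := by
    rcases Nat.eq_zero_or_pos N with h | h
    · exact Or.inr h
    · left
      rw [← Finset.card_pos]
      have : 0 < B₁ * N := Nat.mul_pos (by omega) h
      omega
  rcases hFne with hFne | hN0
  swap
  · exact ⟨v, ∅, by rw [hN0]; exact Nat.zero_le _, by simp, by simp⟩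
  have hgv : S.Good v := by
    obtain ⟨t, ht⟩ := hFne
    obtain ⟨h1, h2, s, h3, h4⟩ := hFm t ht
    exact hgood t h1 h2 v s h3 h4
  set q : ℕ → G ⧸ S.sp (st S.Γ v) := fun t => QuotientGroup.mk (g t) with hq
  have hfib : ∀ b ∈ F.image q, (F.filter (fun x => q x = b)).card ≤ B₁ := by
    intro b _
    have hcb : ∀ t ∈ F.filter (fun x => q x = b), S.inC (st S.Γ v) (Quotient.out b) (g t) := by
      intro t ht
      rw [Finset.mem_filter] at ht
      have h1 : (QuotientGroup.mk (Quotient.out b) : G ⧸ S.sp (st S.Γ v)) =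
          QuotientGroup.mk (g t) := by
        rw [← hq] at *
        have h2 : (QuotientGroup.mk (Quotient.out b) : G ⧸ S.sp (st S.Γ v)) = b :=
          Quotient.out_eq' b
        rw [h2]
        exact ht.2.symm
      exact QuotientGroup.eq.1 h1
    rcases hgv with hfin | ⟨hu1, hu2⟩
    · refine le_trans (wall_steps_fin hg (v := v) ?_ hcb) (hB' v hfin)
      intro t ht
      rw [Finset.mem_filter] at ht
      obtain ⟨-, h2, h3⟩ := hFm t ht.1
      exact ⟨by omega, h3⟩
    · rcases (F.filter (fun x => q x = b)).eq_empty_or_nonempty with h0 | h0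
      · rw [h0]; simp
      · set X := F.filter (fun x => q x = b) with hX
        have m0 := X.min'_mem h0
        have m1 := X.max'_mem h0
        have hle := X.min'_le _ m1
        have h1 := hFm _ (Finset.mem_filter.1 m1).1
        have h2 := wall_steps_unb hg hM hK hu1 hu2 hle (by omega)
          ((hcb _ m0).symm.trans (hcb _ m1))
        have h3 : X ⊆ Finset.Icc (X.min' h0) (X.min' h0 + (4 * M 6 + 3)) := by
          intro t ht
          rw [Finset.mem_Icc]
          exact ⟨X.min'_le t ht, (X.le_max' t ht).trans h2⟩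
        have h4 := Finset.card_le_card h3
        rw [Nat.card_Icc] at h4
        omega
  have hcard := Finset.card_le_mul_card_image F B₁ hfib
  have hN' : N ≤ (F.image q).card := by
    have h1 : B₁ * N ≤ B₁ * (F.image q).card := hv.trans hcard
    exact Nat.le_of_mul_le_mul_left h1 (by omega)
  obtain ⟨T, hT1, hT2, hT3⟩ := Finset.exists_subset_injOn_image_eq_of_surjOn (f := q)
    (F : Set ℕ) (F.image q) (by
      intro b hb
      rw [Finset.mem_coe, Finset.mem_image] at hb
      obtain ⟨t, ht, h⟩ := hb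
      exact ⟨t, ht, h⟩)
  refine ⟨v, T, ?_, fun t ht => hFm t (hT1 ht), ?_⟩
  · rw [← hT3, Finset.card_image_of_injOn hT2] at hN'
    exact hN'
  · intro t ht t' ht' h
    exact hT2 ht ht' (QuotientGroup.eq.2 h)

end Sys

end Pool.Agent.Y33.GP
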